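import Pool.Agent.N345.DW.Gen

set_option autoImplicit false
set_option linter.unusedSectionVars false

/-!
# The local gap in all dimensions, conclusion
-/

namespace Pool.Agent.N345.DW

open Finset

variable {X β : Type} [Fintype X] [Fintype β] [DecidableEq X] [DecidableEq β]
variable {B : β → Finset X} {n r : ℕ}

namespace Dsg

variable (h : Dsg n r B)
include h

theorem line_size {N : ℕ} (hN : r * n + 1 = N + r) (hr1 : 1 ≤ r) (hn4 : 4 ≤ n) {p : X}
    (hlt : r * (Y n B p).card < 2 * (n * N)) {b : β} {y : X} (hy : y ∈ Y n B p)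
    (hb : b ∈ bl B p y) (ht : (Y n B p ∩ B b).card = 2 * n) : (L B p y).card = n := by
  have hyp := (mem_Y.1 hy).1
  have hval : ∀ z ∈ Y n B p ∩ B b, a3 B p y z = r * n + 1 ∨ a3 B p y z + 1 ≤ 2 * r := by
    intro z hz
    rw [mem_inter] at hz
    by_cases ha : a3 B p y z = r * n + 1
    · exact Or.inl ha
    right
    have hle := h.a3_le hy z
    have hra := (h.two_n hN hy hz.1 hb hz.2 ht).2
    have i1 := h.ineq1 hN hy hz.1 (by omega)
    have i2 := h.ineq2 hN hy hz.1 hb hz.2 ht
    obtain ⟨g, hg⟩ : ∃ g, a3 B p y z = r + g := ⟨_, (Nat.add_sub_cancel' hra).symm⟩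
    obtain ⟨δ, hδ⟩ : ∃ δ, N = g + δ := ⟨N - g, by omega⟩
    have e1 : r * n + 1 - a3 B p y z = δ := by omega
    rw [e1] at i1
    have e2 : ((r : ℤ) * n + 1 - a3 B p y z) = δ := by
      have : r * n + 1 = a3 B p y z + δ := by omega
      have : (r : ℤ) * n + 1 = a3 B p y z + δ := by exact_mod_cast this
      linarith
    have e3 : ((a3 B p y z : ℤ) - r) = g := by rw [hg]; push_cast; ring
    rw [e2, e3] at i2
    by_contra hcon
    push Not at hcon
    have hgr : r ≤ g := by omega
    have hnpos : 0 < n := by omega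
    -- r < δ
    have hNpos : 0 < N := by
      rcases Nat.eq_zero_or_pos N with h0 | h0
      · rw [h0, mul_zero, mul_zero] at hlt; omega
      · exact h0
    have hrδ : r < δ := by
      by_contra h9
      push Not at h9
      have h10 : r * (2 * (n * N)) ≤ r * ((Y n B p).card * δ) := Nat.mul_le_mul_left _ i1
      have h11 : r * ((Y n B p).card * δ) = (r * (Y n B p).card) * δ := by ring
      rw [h11] at h10
      have h12 : (r * (Y n B p).card) * δ ≤ (r * (Y n B p).card) * r := Nat.mul_le_mul_left _ h9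
      have h13 : 0 < δ := by
        rcases Nat.eq_zero_or_pos δ with h0 | h0
        · omega
        · exact h0
      have h14 : (r * (Y n B p).card) * r < (2 * (n * N)) * r ∨ r = 0 := by
        rcases Nat.eq_zero_or_pos r with h0 | h0
        · exact Or.inr h0
        · exact Or.inl (Nat.mul_lt_mul_of_pos_right hlt h0)
      rcases h14 with h14 | h14
      · have : r * (2 * (n * N)) = (2 * (n * N)) * r := by ring
        omega
      · omega
    have hltz : (r : ℤ) * (Y n B p).card < 2 * (n * N) := by exact_mod_cast hlt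
    have hδz : (N : ℤ) = g + δ := by exact_mod_cast hδ
    have h15 : (2 : ℤ) * n * (g * δ + r ^ 2) ≤ 2 * n * (r * N) := by
      refine i2.trans ?_
      have h16 : (r : ℤ) * (r * (Y n B p).card) ≤ r * (2 * (n * N)) :=
        mul_le_mul_of_nonneg_left hltz.le (by positivity)
      calc (r : ℤ) ^ 2 * (Y n B p).card = r * (r * (Y n B p).card) := by ring
        _ ≤ r * (2 * (n * N)) := h16
        _ = _ := by ring
    have h17 : (g : ℤ) * δ + r ^ 2 ≤ r * N := le_of_mul_le_mul_left h15 (by positivity)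
    have h18 : (0 : ℤ) ≤ (g - r) * (δ - r) := by
      apply mul_nonneg
      · have : (r : ℤ) ≤ g := by exact_mod_cast hgr
        linarith
      · have : (r : ℤ) < δ := by exact_mod_cast hrδ
        linarith
    -- equality everywhere: use strictness
    rcases Nat.eq_zero_or_pos r with h0 | h0
    · subst h0
      omega
    · have h16 : (r : ℤ) * (r * (Y n B p).card) < r * (2 * (n * N)) :=
        mul_lt_mul_of_pos_left hltz (by exact_mod_cast h0)
      have h19 : (2 : ℤ) * n * (g * δ + r ^ 2) < 2 * n * (r * N) := by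
        refine lt_of_le_of_lt i2 ?_
        calc (r : ℤ) ^ 2 * (Y n B p).card = r * (r * (Y n B p).card) := by ring
          _ < r * (2 * (n * N)) := h16
          _ = _ := by ring
      have h20 : (g : ℤ) * δ + r ^ 2 < r * N := lt_of_mul_lt_mul_left h19 (by positivity)
      rw [hδz] at h20
      nlinarith
  -- the class of `y`
  set C := (Y n B p ∩ B b).filter fun z => a3 B p y z = r * n + 1 with hC
  have hCL : C = (L B p y).erase p := by
    ext w
    rw [hC, mem_filter, mem_inter, mem_erase]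
    constructor
    · rintro ⟨⟨h1, h2⟩, h3⟩
      refine ⟨(mem_Y.1 h1).1, ?_⟩
      rw [mem_L]
      intro c hc1 hc2
      have h5 : ((bl B p y).filter fun c => w ∈ B c) = bl B p y := by
        apply Finset.eq_of_subset_of_card_le (Finset.filter_subset _ _)
        rw [h.g_card_bl hy]
        exact h3.ge
      have h6 : c ∈ (bl B p y).filter fun c => w ∈ B c := by
        rw [h5]; exact mem_bl.2 ⟨hc1, hc2⟩
      exact (mem_filter.1 h6).2
    · rintro ⟨h1, h2⟩
      have h3 := h.L_eq (Ne.symm hyp) (Ne.symm h1) (left_mem p y) h2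
      refine ⟨⟨mem_Y.2 ⟨h1, by rw [h3]; exact (mem_Y.1 hy).2⟩, L_sub hb h2⟩, ?_⟩
      rw [a3, ← h.g_card_bl hy]
      congr 1
      apply Finset.filter_true_of_mem
      intro c hc
      exact L_sub hc h2
  have hCc : C.card + 1 = (L B p y).card := by
    rw [hCL, Finset.card_erase_of_mem (left_mem p y)]
    have : 0 < (L B p y).card := Finset.card_pos.2 ⟨p, left_mem p y⟩
    omega
  have hLle := h.card_le (Ne.symm hyp)
  have hLne := (mem_Y.1 hy).2
  by_contra hne
  have hCn : C.card + 2 ≤ n := by omega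
  have h1 := h.g_sum_block hN hy (mem_bl.1 hb).1
  rw [if_pos (mem_bl.1 hb).2, ht] at h1
  have h2 : ∑ w ∈ Y n B p ∩ B b, (a3 B p y w + 1) ≤
      ∑ w ∈ Y n B p ∩ B b, (2 * r + if a3 B p y w = r * n + 1 then r * n + 2 else 0) := by
    refine Finset.sum_le_sum fun w hw => ?_
    rcases hval w hw with h3 | h3
    · rw [h3, if_pos rfl]; omega
    · split_ifs <;> omega
  obtain ⟨i, hi⟩ : ∃ i, n = C.card + (i + 2) := ⟨n - C.card - 2, by omega⟩
  -- use the sharper form
  have h2' : ∑ w ∈ Y n B p ∩ B b, ((a3 B p y w : ℤ) + 1) ≤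
      ∑ w ∈ Y n B p ∩ B b, (2 * r + if a3 B p y w = r * n + 1 then (r * n + 2 - 2 * r : ℤ) else 0) := by
    refine Finset.sum_le_sum fun w hw => ?_
    rcases hval w hw with h3 | h3
    · rw [if_pos h3]
      have : (a3 B p y w : ℤ) = r * n + 1 := by exact_mod_cast h3
      linarith
    · have h4 : (a3 B p y w : ℤ) + 1 ≤ 2 * r := by exact_mod_cast h3
      split_ifs with h5
      · have h6 : (a3 B p y w : ℤ) = r * n + 1 := by exact_mod_cast h5
        linarith
      · linarith
  rw [Finset.sum_add_distrib, Finset.sum_add_distrib, Finset.sum_const, Finset.sum_const,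
    ← Finset.sum_filter, Finset.sum_const, ht, ← hC] at h2'
  have h1z : ∑ w ∈ Y n B p ∩ B b, (a3 B p y w : ℤ) = r * (2 * n) + n * N := by exact_mod_cast h1
  rw [h1z] at h2'
  simp only [nsmul_eq_mul] at h2'
  push_cast at h2'
  have hNz : (r : ℤ) * n + 1 = N + r := by exact_mod_cast hN
  have hiz : (n : ℤ) = C.card + (i + 2) := by exact_mod_cast hi
  have hn4z : (4 : ℤ) ≤ n := by exact_mod_cast hn4
  have hi0 : (0 : ℤ) ≤ i := Int.natCast_nonneg i
  have hr0 : (0 : ℤ) ≤ r := Int.natCast_nonneg r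
  have hN' : (N : ℤ) = r * n + 1 - r := by linarith
  have hC' : (C.card : ℤ) = n - (i + 2) := by linarith
  rw [hN', hC'] at h2'
  nlinarith [mul_nonneg hr0 hi0, mul_nonneg hr0 (by linarith : (0 : ℤ) ≤ n - 4),
    mul_nonneg (mul_nonneg hr0 hi0) (by linarith : (0 : ℤ) ≤ n - 4), mul_nonneg hi0 (by linarith : (0 : ℤ) ≤ n - 4)]

/-- **The local gap.** -/
theorem gap_gen {N : ℕ} (hN : r * n + 1 = N + r) (hr1 : 1 ≤ r) (hn4 : 4 ≤ n) (p : X)
    (hp : (Y n B p).Nonempty) : 2 * (n * N) ≤ r * (Y n B p).card := by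
  obtain ⟨y, hy⟩ := hp
  by_contra hlt
  push Not at hlt
  have hnpos : 0 < n := by omega
  have hsum : ∑ b ∈ bl B p y, (Y n B p ∩ B b).card = n * N + r * (Y n B p).card := by
    rw [← sum_cnt]; exact h.g_sum_Y hN hy
  obtain ⟨b, hb, hb2⟩ : ∃ b ∈ bl B p y, (Y n B p ∩ B b).card < 3 * n := by
    by_contra hcon
    push Not at hcon
    have h1 := Finset.card_nsmul_le_sum _ _ _ hcon
    rw [hsum, h.g_card_bl hy, smul_eq_mul, hN] at h1
    nlinarith
  have ht : (Y n B p ∩ B b).card = 2 * n := by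
    have h1 := h.block_gap p y hy b (mem_bl.1 hb).1 (mem_bl.1 hb).2
    obtain ⟨t, htt⟩ := h.dvd_block p b (mem_bl.1 hb).1
    rw [htt] at h1 hb2 ⊢
    have h2 : t < 3 := by
      have : n * t < n * 3 := by omega
      exact Nat.lt_of_mul_lt_mul_left this
    have h3 : 2 ≤ t := by
      have : n * 2 ≤ n * t := by omega
      exact Nat.le_of_mul_le_mul_left this (by omega)
    have : t = 2 := by omega
    rw [this]; ring
  have hsize : ∀ w ∈ Y n B p ∩ B b, (L B p w).card = n := by
    intro w hw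
    rw [mem_inter] at hw
    exact h.line_size hN hr1 hn4 hlt hw.1 (mem_bl.2 ⟨(mem_bl.1 hb).1, hw.2⟩) ht
  have hdvd : n - 1 ∣ (Y n B p ∩ B b).card := by
    rw [Finset.card_eq_sum_card_image (fun z => L B p z)]
    refine Finset.dvd_sum fun ℓ hℓ => ?_
    obtain ⟨w, hw, rfl⟩ := Finset.mem_image.1 hℓ
    have hwY := (mem_inter.1 hw).1
    have hwb := (mem_inter.1 hw).2
    have hwp := (mem_Y.1 hwY).1
    have e : ((Y n B p ∩ B b).filter fun z => L B p z = L B p w) = (L B p w).erase p := by
      ext z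
      rw [mem_filter, mem_erase]
      constructor
      · rintro ⟨h1, h2⟩
        exact ⟨(mem_Y.1 (mem_inter.1 h1).1).1, h2 ▸ right_mem p z⟩
      · rintro ⟨h1, h2⟩
        have h3 := h.L_eq (Ne.symm hwp) (Ne.symm h1) (left_mem p w) h2
        refine ⟨mem_inter.2 ⟨mem_Y.2 ⟨h1, by rw [h3]; exact (mem_Y.1 hwY).2⟩,
          L_sub (mem_bl.2 ⟨(mem_bl.1 hb).1, hwb⟩) h2⟩, h3⟩
    rw [e, Finset.card_erase_of_mem (left_mem p w), hsize w hw]
  rw [ht] at hdvd
  have h1 : n - 1 ∣ 2 := by
    have e : 2 * n = 2 * (n - 1) + 2 := by omega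
    rw [e] at hdvd
    exact (Nat.dvd_add_right (Dvd.intro_left _ rfl)).1 hdvd
  have := Nat.le_of_dvd (by norm_num) h1
  omega

/-- the local gap, uniform version -/
theorem gap_all (hr : 1 ≤ r) (p : X) (hp : (Y n B p).Nonempty) :
    n * (2 * n - 1) ≤ (Y n B p).card := by
  have hn := h.n2
  rcases Nat.lt_or_ge n 4 with h4 | h4
  · refine le_trans (Nat.mul_le_mul_left _ ?_) (h.gap hr p hp)
    omega
  · obtain ⟨N, hN, -⟩ := h.exists_N
    have h1 := h.gap_gen hN hr h4 p hp
    obtain ⟨s, hs⟩ := h.dvd_all p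
    rw [hs] at h1 ⊢
    apply Nat.mul_le_mul_left
    have h2 : 2 * N ≤ r * s := by
      have : n * (2 * N) ≤ n * (r * s) := by
        calc n * (2 * N) = 2 * (n * N) := by ring
          _ ≤ _ := h1
          _ = _ := by ring
      exact Nat.le_of_mul_le_mul_left this (by omega)
    obtain ⟨k, rfl⟩ : ∃ k, n = k + 1 := ⟨n - 1, by omega⟩
    have h3 : N = r * k + 1 := by
      have : r * (k + 1) + 1 = r * k + 1 + r := by ring
      omega
    rw [h3] at h2
    have h4 : r * (2 * k) < r * s := by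
      have : r * (2 * k) = 2 * (r * k) := by ring
      omega
    have := Nat.lt_of_mul_lt_mul_left h4
    omega

end Dsg

end Pool.Agent.N345.DW
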