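import Mathlib

set_option autoImplicit false
set_option linter.unusedSectionVars false

/-!
# Symmetric designs with the parameters of a projective space: lines
-/

namespace Pool.Agent.N345.DW

open Finset

variable {X β : Type} [Fintype X] [Fintype β] [DecidableEq X] [DecidableEq β]

/-- symmetric designs with `λ = rn + 1`, `k = λ n + 1`, `v = k n + 1` -/
structure Dsg (n r : ℕ) (B : β → Finset X) : Prop where
  n2 : 2 ≤ n
  cX : Fintype.card X = ((r * n + 1) * n + 1) * n + 1
  cB : Fintype.card β = ((r * n + 1) * n + 1) * n + 1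
  size : ∀ b, (B b).card = (r * n + 1) * n + 1
  rep : ∀ x, (univ.filter fun b => x ∈ B b).card = (r * n + 1) * n + 1
  pair : ∀ x y, x ≠ y → (univ.filter fun b => x ∈ B b ∧ y ∈ B b).card = r * n + 1
  inter : ∀ b c, b ≠ c → (B b ∩ B c).card = r * n + 1

variable (B : β → Finset X)

/-- the line joining `x` and `y` -/
def L (x y : X) : Finset X := univ.filter fun z => ∀ b, x ∈ B b → y ∈ B b → z ∈ B b

/-- the blocks containing `x` and `y` -/
def bl (x y : X) : Finset β := univ.filter fun b => x ∈ B b ∧ y ∈ B b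

variable {B}

theorem mem_L {x y z : X} : z ∈ L B x y ↔ ∀ b, x ∈ B b → y ∈ B b → z ∈ B b := by simp [L]

theorem mem_bl {x y : X} {b : β} : b ∈ bl B x y ↔ x ∈ B b ∧ y ∈ B b := by simp [bl]

theorem left_mem (x y : X) : x ∈ L B x y := mem_L.2 fun _ h _ => h

theorem right_mem (x y : X) : y ∈ L B x y := mem_L.2 fun _ _ h => h

theorem L_comm (x y : X) : L B x y = L B y x := by
  ext z; simp only [mem_L]; exact ⟨fun h b h1 h2 => h b h2 h1, fun h b h1 h2 => h b h2 h1⟩

theorem L_sub {x y : X} {b : β} (h : b ∈ bl B x y) : L B x y ⊆ B b := fun z hz =>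
  mem_L.1 hz b (mem_bl.1 h).1 (mem_bl.1 h).2

variable {n r : ℕ}

namespace Dsg

variable (h : Dsg n r B)
include h

theorem bl_eq {x y z w : X} (hxy : x ≠ y) (hzw : z ≠ w) (hz : z ∈ L B x y) (hw : w ∈ L B x y) :
    bl B x y = bl B z w := by
  apply Finset.eq_of_subset_of_card_le
  · intro b hb
    exact mem_bl.2 ⟨L_sub hb hz, L_sub hb hw⟩
  · rw [bl, bl, h.pair x y hxy, h.pair z w hzw]

theorem L_eq {x y z w : X} (hxy : x ≠ y) (hzw : z ≠ w) (hz : z ∈ L B x y) (hw : w ∈ L B x y) :
    L B z w = L B x y := by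
  have h1 := h.bl_eq hxy hzw hz hw
  ext u
  simp only [mem_L]
  constructor
  · intro hu b hb1 hb2
    have : b ∈ bl B z w := h1 ▸ mem_bl.2 ⟨hb1, hb2⟩
    exact hu b (mem_bl.1 this).1 (mem_bl.1 this).2
  · intro hu b hb1 hb2
    have : b ∈ bl B x y := h1 ▸ mem_bl.2 ⟨hb1, hb2⟩
    exact hu b (mem_bl.1 this).1 (mem_bl.1 this).2

/-- a block which does not contain the line meets it in at most one point -/
theorem inter_le {x y : X} (hxy : x ≠ y) {b : β} (hb : b ∉ bl B x y) :
    (L B x y ∩ B b).card ≤ 1 := by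
  rw [Finset.card_le_one]
  intro z hz w hw
  by_contra hzw
  rw [mem_inter] at hz hw
  apply hb
  rw [h.bl_eq hxy hzw hz.1 hw.1]
  exact mem_bl.2 ⟨hz.2, hw.2⟩

theorem sum_inter (S : Finset X) : ∑ b, (S ∩ B b).card = S.card * ((r * n + 1) * n + 1) := by
  have h1 : ∀ b, (S ∩ B b).card = ∑ z ∈ S, if z ∈ B b then 1 else 0 := by
    intro b
    rw [← Finset.card_filter, Finset.filter_mem_eq_inter]
  simp_rw [h1]
  rw [Finset.sum_comm]
  rw [Finset.sum_congr rfl (g := fun _ => (r * n + 1) * n + 1)]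
  · simp
  · intro z _
    rw [← Finset.card_filter]
    exact h.rep z

theorem count {x y : X} (hxy : x ≠ y) :
    (L B x y).card * ((r * n + 1) * n + 1) =
      (L B x y).card * (r * n + 1) + ∑ b ∈ univ.filter (fun b => b ∉ bl B x y), (L B x y ∩ B b).card := by
  rw [← h.sum_inter, ← Finset.sum_filter_add_sum_filter_not univ (fun b => b ∈ bl B x y)]
  congr 1
  rw [Finset.sum_congr rfl (g := fun _ => (L B x y).card)]
  · rw [Finset.sum_const, smul_eq_mul, mul_comm]
    have e : (univ.filter (fun b => b ∈ bl B x y)) = (univ.filter fun b => x ∈ B b ∧ y ∈ B b) := by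
      ext b; simp [mem_bl]
    rw [e, h.pair x y hxy]
  · intro b hb
    rw [mem_filter] at hb
    rw [Finset.inter_eq_left.2 (L_sub hb.2)]

theorem card_not {x y : X} (hxy : x ≠ y) :
    (univ.filter (fun b => b ∉ bl B x y)).card = (n + 1) * (((r * n + 1) * n + 1) - (r * n + 1)) := by
  have h1 : (univ.filter (fun b => b ∉ bl B x y)).card + (r * n + 1) =
      ((r * n + 1) * n + 1) * n + 1 := by
    rw [← h.cB, ← Finset.card_univ, ← h.pair x y hxy]
    have := Finset.card_filter_add_card_filter_not (s := (univ : Finset β)) (fun b => b ∈ bl B x y)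
    have e : (univ.filter (fun b => b ∈ bl B x y)) = (univ.filter fun b => x ∈ B b ∧ y ∈ B b) := by
      ext b; simp [mem_bl]
    rw [e] at this
    rw [← this, add_comm]
  obtain ⟨m, rfl⟩ : ∃ m, n = m + 1 := ⟨n - 1, by have := h.n2; omega⟩
  have e : (r * (m + 1) + 1) * (m + 1) + 1 - (r * (m + 1) + 1) = (r * (m + 1) + 1) * m + 1 := by
    have : (r * (m + 1) + 1) * (m + 1) + 1 = (r * (m + 1) + 1) * m + 1 + (r * (m + 1) + 1) := by ring
    omega
  rw [e]
  nlinarith

theorem kl_pos : 0 < ((r * n + 1) * n + 1) - (r * n + 1) := by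
  have := h.n2
  have : r * n + 1 ≤ (r * n + 1) * n := Nat.le_mul_of_pos_right _ (by omega)
  omega

theorem count' {x y : X} (hxy : x ≠ y) :
    (L B x y).card * (((r * n + 1) * n + 1) - (r * n + 1)) =
      ∑ b ∈ univ.filter (fun b => b ∉ bl B x y), (L B x y ∩ B b).card := by
  have h1 := h.count hxy
  have h2 := h.kl_pos
  rw [Nat.mul_sub]
  omega

theorem card_le {x y : X} (hxy : x ≠ y) : (L B x y).card ≤ n + 1 := by
  have h1 := h.count' hxy
  have h2 : ∑ b ∈ univ.filter (fun b => b ∉ bl B x y), (L B x y ∩ B b).card ≤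
      (n + 1) * (((r * n + 1) * n + 1) - (r * n + 1)) := by
    rw [← h.card_not hxy, Finset.card_eq_sum_ones]
    exact Finset.sum_le_sum fun b hb => h.inter_le hxy (mem_filter.1 hb).2
  rw [← h1] at h2
  exact Nat.le_of_mul_le_mul_right h2 h.kl_pos

/-- a block not containing a long line meets it in one point -/
theorem inter_one {x y : X} (hxy : x ≠ y) (hL : (L B x y).card = n + 1) {b : β}
    (hb : b ∉ bl B x y) : (L B x y ∩ B b).card = 1 := by
  have h1 := h.count' hxy
  rw [hL, ← h.card_not hxy, Finset.card_eq_sum_ones] at h1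
  have h2 := (Finset.sum_eq_sum_iff_of_le
    (fun b hb => h.inter_le hxy (mem_filter.1 hb).2)).1 h1.symm
  exact h2 b (by simp [hb])

theorem meets {x y : X} (hxy : x ≠ y) (hL : (L B x y).card = n + 1) (b : β) :
    ∃ z, z ∈ L B x y ∧ z ∈ B b := by
  by_cases hb : b ∈ bl B x y
  · exact ⟨x, left_mem x y, (mem_bl.1 hb).1⟩
  · have := h.inter_one hxy hL hb
    obtain ⟨z, hz⟩ := Finset.card_pos.1 (by rw [this]; exact one_pos)
    exact ⟨z, (mem_inter.1 hz).1, (mem_inter.1 hz).2⟩

/-- the number of blocks through a long line and a further point -/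
theorem three {x y z : X} (hxy : x ≠ y) (hL : (L B x y).card = n + 1) (hz : z ∉ L B x y) :
    (univ.filter fun b => x ∈ B b ∧ y ∈ B b ∧ z ∈ B b).card = r := by
  have h1 : ∑ b ∈ univ.filter (fun b => z ∈ B b), (L B x y ∩ B b).card = (n + 1) * (r * n + 1) := by
    have e1 : ∀ b, (L B x y ∩ B b).card = ∑ w ∈ L B x y, if w ∈ B b then 1 else 0 := by
      intro b
      rw [← Finset.card_filter, Finset.filter_mem_eq_inter]
    simp_rw [e1]
    rw [Finset.sum_comm, ← hL, ← smul_eq_mul, ← Finset.sum_const]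
    refine Finset.sum_congr rfl fun w hw => ?_
    have hwz : w ≠ z := fun e => hz (e ▸ hw)
    rw [← Finset.card_filter, Finset.filter_filter, ← h.pair z w hwz.symm]
  have h2 : ∑ b ∈ univ.filter (fun b => z ∈ B b), (L B x y ∩ B b).card =
      n * (univ.filter fun b => x ∈ B b ∧ y ∈ B b ∧ z ∈ B b).card +
        ((r * n + 1) * n + 1) := by
    have e2 : ∀ b ∈ univ.filter (fun b => z ∈ B b), (L B x y ∩ B b).card =
        n * (if x ∈ B b ∧ y ∈ B b then 1 else 0) + 1 := by
      intro b _
      by_cases hb : b ∈ bl B x y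
      · rw [Finset.inter_eq_left.2 (L_sub hb), hL, if_pos (mem_bl.1 hb)]
        ring
      · rw [h.inter_one hxy hL hb, if_neg (fun hh => hb (mem_bl.2 hh)), mul_zero, zero_add]
    rw [Finset.sum_congr rfl e2, Finset.sum_add_distrib, ← Finset.mul_sum, ← Finset.card_eq_sum_ones,
      h.rep z, ← Finset.card_filter, Finset.filter_filter]
    congr 3
    ext b
    simp only [mem_filter, mem_univ, true_and]
    tauto
  have hn := h.n2
  have h3 : n * (univ.filter fun b => x ∈ B b ∧ y ∈ B b ∧ z ∈ B b).card = n * r := by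
    rw [h1] at h2
    have : (n + 1) * (r * n + 1) = n * r + ((r * n + 1) * n + 1) := by ring
    omega
  exact Nat.eq_of_mul_eq_mul_left (by omega) h3

end Dsg

end Pool.Agent.N345.DW
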