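import Pool.Agent.N345.DW.Main
import Pool.Agent.N345.DW.All
import Pool.Agent.N345.Sym.Basic

set_option autoImplicit false
set_option linter.unusedSectionVars false

/-!
# Designs and difference sets with the Singer parameters
-/

namespace Pool.Agent.N345.DW

open Finset

theorem PG.primePow' {X β : Type} [Fintype X] [Fintype β] [dX : DecidableEq X]
    [dβ : DecidableEq β] {n r : ℕ} {B : β → Finset X} (h : PG n r B) : IsPrimePow n := by
  have e1 : dX = fun a b => Classical.propDecidable (a = b) := Subsingleton.elim _ _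
  have e2 : dβ = fun a b => Classical.propDecidable (a = b) := Subsingleton.elim _ _
  subst e1
  subst e2
  exact PG.primePow h

/-- parameters -/
theorem params {n m v k lam : ℕ} (hn : 2 ≤ n) (hm : 4 ≤ m) (hv : v * (n - 1) = n ^ m - 1)
    (hk : k * (n - 1) = n ^ (m - 1) - 1) (hl : lam * (n - 1) = n ^ (m - 2) - 1) :
    ∃ r, 1 ≤ r ∧ (m = 4 → r = 1) ∧ lam = r * n + 1 ∧ k = (r * n + 1) * n + 1 ∧
      v = ((r * n + 1) * n + 1) * n + 1 := by
  obtain ⟨j, rfl⟩ : ∃ j, m = j + 4 := ⟨m - 4, by omega⟩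
  have e1 : j + 4 - 1 = (j + 2) + 1 := by omega
  have e2 : j + 4 - 2 = (j + 1) + 1 := by omega
  rw [e1] at hk
  rw [e2] at hl
  have hn1 : 0 < n - 1 := by omega
  have step : ∀ a b i : ℕ, a * (n - 1) = n ^ (i + 1) - 1 → b * (n - 1) = n ^ i - 1 →
      a = b * n + 1 := by
    intro a b i ha hb
    apply Nat.eq_of_mul_eq_mul_right hn1
    have hp : 0 < n ^ i := by positivity
    have hb' : n ^ i = b * (n - 1) + 1 := by omega
    obtain ⟨c, rfl⟩ : ∃ c, n = c + 1 := ⟨n - 1, by omega⟩
    rw [ha, pow_succ, hb']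
    simp only [Nat.add_sub_cancel]
    have : (b * c + 1) * (c + 1) = (b * (c + 1) + 1) * c + 1 := by ring
    omega
  obtain ⟨r, hr⟩ : n - 1 ∣ n ^ (j + 1) - 1 := by
    have := Nat.sub_dvd_pow_sub_pow n 1 (j + 1)
    rwa [one_pow] at this
  have hr' : r * (n - 1) = n ^ (j + 1) - 1 := by rw [hr, mul_comm]
  have h1 := step lam r (j + 1) hl hr'
  have h2 := step k lam (j + 2) hk hl
  have h3 := step v k (j + 3) hv hk
  refine ⟨r, ?_, ?_, h1, by rw [h2, h1], by rw [h3, h2, h1]⟩
  · rcases Nat.eq_zero_or_pos r with h0 | h0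
    · rw [h0, zero_mul] at hr'
      have : n ^ 1 ≤ n ^ (j + 1) := Nat.pow_le_pow_right (by omega) (by omega)
      rw [pow_one] at this
      omega
    · exact h0
  · intro hj
    have : j = 0 := by omega
    subst this
    rw [zero_add, pow_one] at hr'
    have : r * (n - 1) = 1 * (n - 1) := by rw [hr', one_mul]
    exact Nat.eq_of_mul_eq_mul_right hn1 this

section designs

variable {v k lam n r : ℕ} {B : Fin v → Finset (Fin v)}

theorem dsg_fin (hn : 2 ≤ n) (hr : 1 ≤ r) (hl : lam = r * n + 1) (hk : k = (r * n + 1) * n + 1)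
    (hv : v = ((r * n + 1) * n + 1) * n + 1) (hs : ∀ i, (B i).card = k)
    (hp : ∀ x y, x ≠ y → (univ.filter fun i => x ∈ B i ∧ y ∈ B i).card = lam) : Dsg n r B := by
  have hkv : k < v := by
    rw [hk, hv]
    have : (r * n + 1) * n + 1 < ((r * n + 1) * n + 1) * n :=
      lt_mul_of_one_lt_right (Nat.succ_pos _) hn
    omega
  have hk2 : 2 ≤ k := by
    rw [hk]
    have : 0 < (r * n + 1) * n := Nat.mul_pos (Nat.succ_pos _) (by omega)
    omega
  have hv2 : 2 ≤ v := by omega
  have hl1 : 1 ≤ lam := by omega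
  obtain ⟨h1, -⟩ := Pool.Agent.N345.Sym.repl v k lam hv2 hl1 B hs hp
  obtain ⟨-, -, h2⟩ := Pool.Agent.N345.Sym.design_facts hv2 hl1 hkv hs hp
  exact ⟨hn, by rw [Fintype.card_fin, hv], by rw [Fintype.card_fin, hv],
    fun b => by rw [hs, hk], fun x => by rw [h1, hk], fun x y hxy => by rw [hp x y hxy, hl],
    fun b c hbc => by rw [h2 b c hbc, hl]⟩

end designs

section transfer

variable {X β : Type} [Fintype X] [Fintype β] [DecidableEq X] [DecidableEq β]

/-- designs on arbitrary types -/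
theorem dsg_of {n r : ℕ} {B : β → Finset X} (hn : 2 ≤ n) (hr : 1 ≤ r)
    (hX : Fintype.card X = ((r * n + 1) * n + 1) * n + 1)
    (hβ : Fintype.card β = ((r * n + 1) * n + 1) * n + 1)
    (hs : ∀ i, (B i).card = (r * n + 1) * n + 1)
    (hp : ∀ x y, x ≠ y → (univ.filter fun i => x ∈ B i ∧ y ∈ B i).card = r * n + 1) :
    Dsg n r B := by
  obtain ⟨v, hv⟩ : ∃ v, v = ((r * n + 1) * n + 1) * n + 1 := ⟨_, rfl⟩
  let eX : X ≃ Fin v := Fintype.equivFinOfCardEq (by rw [hX, hv])
  let eβ : β ≃ Fin v := Fintype.equivFinOfCardEq (by rw [hβ, hv])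
  let C : Fin v → Finset (Fin v) := fun i => (B (eβ.symm i)).map eX.toEmbedding
  have hmem : ∀ x b, eX x ∈ C (eβ b) ↔ x ∈ B b := by
    intro x b
    simp [C]
  have hC : Dsg n r C := by
    apply dsg_fin hn hr rfl rfl hv
    · intro i
      rw [Finset.card_map, hs]
    · intro x y hxy
      obtain ⟨x, rfl⟩ := eX.surjective x
      obtain ⟨y, rfl⟩ := eX.surjective y
      rw [← hp x y (fun e => hxy (by rw [e]))]
      rw [← Finset.card_map eβ.toEmbedding]
      congr 1
      ext i
      obtain ⟨b, rfl⟩ := eβ.surjective i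
      simp only [mem_filter, mem_univ, true_and, hmem, mem_map_equiv, Equiv.symm_apply_apply]
  refine ⟨hn, hX, hβ, hs, ?_, hp, ?_⟩
  · intro x
    rw [← hC.rep (eX x), ← Finset.card_map eβ.toEmbedding]
    congr 1
    ext i
    obtain ⟨b, rfl⟩ := eβ.surjective i
    simp only [mem_filter, mem_univ, true_and, hmem, mem_map_equiv, Equiv.symm_apply_apply]
  · intro b c hbc
    rw [← hC.inter (eβ b) (eβ c) (fun e => hbc (eβ.injective e)), ← Finset.card_map eX.toEmbedding]
    congr 1
    ext i
    obtain ⟨x, rfl⟩ := eX.surjective i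
    simp only [mem_inter, hmem, mem_map_equiv, Equiv.symm_apply_apply]

end transfer

section groups

variable {G : Type} [Group G] [Fintype G] [DecidableEq G]

/-- the right translates of `D` -/
def tr (D : Finset G) (x : G) : Finset G := univ.filter fun z => z * x ∈ D

theorem mem_tr {D : Finset G} {x z : G} : z ∈ tr D x ↔ z * x ∈ D := by simp [tr]

theorem dsg_group {n r : ℕ} {D : Finset G} (hn : 2 ≤ n) (hr : 1 ≤ r)
    (hG : Fintype.card G = ((r * n + 1) * n + 1) * n + 1)
    (hD : D.card = (r * n + 1) * n + 1)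
    (hp : ∀ g : G, g ≠ 1 → ((D ×ˢ D).filter (fun p : G × G => p.1 * p.2⁻¹ = g)).card = r * n + 1) :
    Dsg n r (tr D) := by
  apply dsg_of hn hr hG hG
  · intro x
    rw [← hD]
    refine Finset.card_bij (fun z _ => z * x) (fun z hz => mem_tr.1 hz) (fun a _ b _ e => ?_)
      (fun d hd => ⟨d * x⁻¹, mem_tr.2 (by simpa using hd), by simp⟩)
    exact mul_right_cancel e
  · intro x y hxy
    rw [← hp (x * y⁻¹) (fun e => hxy (mul_inv_eq_one.1 e))]
    refine Finset.card_bij (fun z _ => (x * z, y * z)) ?_ ?_ ?_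
    · intro z hz
      simp only [mem_filter, mem_univ, true_and, mem_tr] at hz
      simp only [mem_filter, mem_product]
      exact ⟨hz, by group⟩
    · intro a _ b _ e
      exact mul_left_cancel (Prod.ext_iff.1 e).1
    · rintro ⟨d, e⟩ hde
      simp only [mem_filter, mem_product] at hde
      obtain ⟨⟨h1, h2⟩, h3⟩ := hde
      refine ⟨x⁻¹ * d, ?_, ?_⟩
      · simp only [mem_filter, mem_univ, true_and, mem_tr]
        refine ⟨by simpa using h1, ?_⟩
        have : y * (x⁻¹ * d) = e := by
          have h4 : d = x * y⁻¹ * e := by rw [← h3]; simp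
          rw [h4]; group
        rw [this]; exact h2
      · have : y * (x⁻¹ * d) = e := by
          have h4 : d = x * y⁻¹ * e := by rw [← h3]; simp
          rw [h4]; group
        simp [this]

/-- translations move lines to lines -/
theorem L_tr (D : Finset G) (x y a : G) : (L (tr D) (x * a) (y * a)).card = (L (tr D) x y).card := by
  refine Finset.card_bij (fun z _ => z * a⁻¹) ?_ (fun _ _ _ _ e => mul_right_cancel e) ?_
  · intro z hz
    rw [mem_L] at hz ⊢
    intro b h1 h2
    have := hz (a⁻¹ * b) (by rw [mem_tr] at h1 ⊢; simpa [mul_assoc] using h1)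
      (by rw [mem_tr] at h2 ⊢; simpa [mul_assoc] using h2)
    rw [mem_tr] at this ⊢
    simpa [mul_assoc] using this
  · intro z hz
    refine ⟨z * a, ?_, by simp⟩
    rw [mem_L] at hz ⊢
    intro b h1 h2
    have := hz (a * b) (by rw [mem_tr] at h1 ⊢; simpa [mul_assoc] using h1)
      (by rw [mem_tr] at h2 ⊢; simpa [mul_assoc] using h2)
    rw [mem_tr] at this ⊢
    simpa [mul_assoc] using this

theorem L_one (D : Finset G) (x y : G) : (L (tr D) x y).card = (L (tr D) 1 (y * x⁻¹)).card := by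
  rw [← L_tr D x y x⁻¹, mul_inv_cancel]

end groups

end Pool.Agent.N345.DW
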