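import Pool.Agent.N345.DW.Gap

set_option autoImplicit false
set_option linter.unusedSectionVars false

/-!
# The sharp local gap for the parameters of `PG(3, n)`
-/

namespace Pool.Agent.N345.DW

open Finset

variable {X β : Type} [Fintype X] [Fintype β] [DecidableEq X] [DecidableEq β]
variable {B : β → Finset X} {n : ℕ}

/-- number of blocks through `p`, `y`, `w` -/
def a3 (B : β → Finset X) (p y w : X) : ℕ := ((bl B p y).filter fun c => w ∈ B c).card

namespace Dsg

variable (h : Dsg n 1 B)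
include h

theorem sum_a3 (S : Finset X) (T : Finset β) :
    ∑ w ∈ S, (T.filter fun c => w ∈ B c).card = ∑ c ∈ T, (S ∩ B c).card := by
  simp_rw [Finset.card_filter]
  rw [Finset.sum_comm]
  refine Finset.sum_congr rfl fun c _ => ?_
  rw [← Finset.card_filter, Finset.filter_mem_eq_inter]

/-- two blocks through `p` and a point `y` joined to `p` by a short line -/
theorem inter_n {p y : X} (hy : y ∈ Y n B p) {b c : β} (hb : b ∈ bl B p y) (hc : c ∈ bl B p y)
    (hbc : b ≠ c) : (Y n B p ∩ B b ∩ B c).card = n := by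
  rw [mem_bl] at hb hc
  obtain ⟨u, hu⟩ := h.dvd_inter p b c hbc hb.1 hc.1
  rw [Finset.inter_assoc]
  have h1 : (Y n B p ∩ (B b ∩ B c)).card ≤ n := by
    have h2 : Y n B p ∩ (B b ∩ B c) ⊆ (B b ∩ B c).erase p := by
      intro w hw
      rw [mem_inter] at hw
      rw [mem_erase]
      exact ⟨(mem_Y.1 hw.1).1, hw.2⟩
    have h3 := Finset.card_le_card h2
    rw [Finset.card_erase_of_mem (mem_inter.2 ⟨hb.1, hc.1⟩), h.inter b c hbc] at h3
    omega
  have h2 : 0 < (Y n B p ∩ (B b ∩ B c)).card :=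
    Finset.card_pos.2 ⟨y, mem_inter.2 ⟨hy, mem_inter.2 ⟨hb.2, hc.2⟩⟩⟩
  have hu1 : u ≠ 0 := by rintro rfl; omega
  have : n * 1 ≤ n * u := Nat.mul_le_mul_left _ (by omega)
  omega

theorem card_bl {p y : X} (hy : y ∈ Y n B p) : (bl B p y).card = n + 1 := by
  rw [bl, h.pair p y (Ne.symm (mem_Y.1 hy).1), one_mul]

/-- the sum of `a3 p y` over the short points of a block through `p` -/
theorem sum_block {p y : X} (hy : y ∈ Y n B p) {c : β} (hc : p ∈ B c) :
    ∑ w ∈ Y n B p ∩ B c, a3 B p y w = (Y n B p ∩ B c).card + if y ∈ B c then n ^ 2 else 0 := by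
  have hyp := (mem_Y.1 hy).1
  have h1 : ∑ w ∈ (B c).erase p, a3 B p y w = ∑ d ∈ bl B p y, ((B c).erase p ∩ B d).card :=
    h.sum_a3 _ _
  have h2 : ∀ d ∈ bl B p y, ((B c).erase p ∩ B d).card = n + if d = c then n ^ 2 else 0 := by
    intro d hd
    have e1 : (B c).erase p ∩ B d = (B c ∩ B d).erase p := by
      ext w; simp only [mem_inter, mem_erase]; tauto
    rw [e1, Finset.card_erase_of_mem (mem_inter.2 ⟨hc, (mem_bl.1 hd).1⟩)]
    by_cases hdc : d = c
    · rw [if_pos hdc, hdc, Finset.inter_self, h.size]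
      rw [Nat.add_sub_cancel]; ring
    · rw [if_neg hdc, h.inter c d (Ne.symm hdc)]
      omega
  rw [Finset.sum_congr rfl h2, Finset.sum_add_distrib, Finset.sum_const, h.card_bl hy, smul_eq_mul,
    Finset.sum_ite_eq'] at h1
  have h3 : (B c).erase p = (Y n B p ∩ B c) ∪ ((B c).erase p \ Y n B p) := by
    ext w; simp only [mem_erase, mem_union, mem_inter, mem_sdiff, mem_Y]; tauto
  have hdis : Disjoint (Y n B p ∩ B c) ((B c).erase p \ Y n B p) := by
    rw [Finset.disjoint_left]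
    intro w hw hw2
    exact (mem_sdiff.1 hw2).2 (mem_inter.1 hw).1
  have h4 : ∑ w ∈ (B c).erase p \ Y n B p, a3 B p y w = ((B c).erase p \ Y n B p).card := by
    rw [Finset.card_eq_sum_ones]
    refine Finset.sum_congr rfl fun w hw => ?_
    simp only [mem_sdiff, mem_erase, mem_Y, not_and, not_not] at hw
    obtain ⟨⟨hwp, _⟩, hwl⟩ := hw
    have hwl := hwl hwp
    have h5 := h.three (z := y) (Ne.symm hwp) hwl (fun hyw => by
      have := h.L_eq (Ne.symm hwp) (Ne.symm hyp) (left_mem p w) hyw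
      exact (mem_Y.1 hy).2 (by rw [this]; exact hwl))
    rw [← h5, a3, bl, Finset.filter_filter]
    congr 1
    ext d; simp only [mem_filter, mem_univ, true_and]; tauto
  have h5 : ((B c).erase p).card = n + n ^ 2 := by
    rw [Finset.card_erase_of_mem hc, h.size, Nat.add_sub_cancel]; ring
  have h6 : ((B c).erase p).card = (Y n B p ∩ B c).card + ((B c).erase p \ Y n B p).card := by
    conv_lhs => rw [h3]
    exact Finset.card_union_of_disjoint hdis
  rw [h3, Finset.sum_union hdis, h4] at h1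
  have e : (if c ∈ bl B p y then n ^ 2 else 0) = if y ∈ B c then n ^ 2 else 0 := by
    congr 1
    rw [mem_bl]
    simp [hc]
  rw [e] at h1
  have : (n + 1) * n = n + n ^ 2 := by ring
  omega

theorem sum_Y {p y : X} (hy : y ∈ Y n B p) :
    ∑ w ∈ Y n B p, a3 B p y w = n ^ 2 + (Y n B p).card := by
  have := h.total p y hy
  unfold a3
  rw [h.sum_a3, this, one_mul, one_mul, Nat.add_sub_cancel]
  ring

/-- weighted sums: for a set `T` of blocks through `p` -/
theorem sum_mul {p y : X} (hy : y ∈ Y n B p) (T : Finset β) (hT : ∀ c ∈ T, p ∈ B c) :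
    ∑ w ∈ Y n B p, (T.filter fun c => w ∈ B c).card * a3 B p y w =
      ∑ c ∈ T, ((Y n B p ∩ B c).card + if y ∈ B c then n ^ 2 else 0) := by
  simp_rw [Finset.card_filter, Finset.sum_mul]
  rw [Finset.sum_comm]
  refine Finset.sum_congr rfl fun c hc => ?_
  rw [← h.sum_block hy (hT c hc), ← Finset.filter_mem_eq_inter, Finset.sum_filter]
  refine Finset.sum_congr rfl fun w _ => ?_
  split_ifs <;> simp

/-- the key inequality -/
theorem key {p y z : X} (hy : y ∈ Y n B p) (hz : z ∈ Y n B p) {b : β} (hb : b ∈ bl B p y)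
    (hzb : z ∈ B b) (ht : (Y n B p ∩ B b).card = 2 * n) :
    (n : ℤ) * (2 * (a3 B p y z - 1) * (n + 1 - a3 B p y z) + 2) ≤ (Y n B p).card := by
  set a : ℤ := (a3 B p y z : ℤ) with ha
  set S := (bl B p y).filter fun c => z ∈ B c with hS
  have hSc : S.card = a3 B p y z := rfl
  have hbz : b ∈ bl B p z := mem_bl.2 ⟨(mem_bl.1 hb).1, hzb⟩
  have hbS : b ∈ S := mem_filter.2 ⟨hb, hzb⟩
  -- the functions
  set f : X → ℤ := fun w => (a3 B p y w : ℤ) with hf
  set g : X → ℤ := fun w => (a3 B p z w : ℤ) with hg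
  set χ : X → ℤ := fun w => if w ∈ B b then 1 else 0 with hχ
  set A : X → ℤ := fun w => ((S.filter fun c => w ∈ B c).card : ℤ) with hA
  set m : ℤ := ((Y n B p).card : ℤ) with hm
  set T : ℤ := ∑ w ∈ Y n B p, A w with hT
  have hTn : T = ((∑ c ∈ S, (Y n B p ∩ B c).card : ℕ) : ℤ) := by
    rw [hT, ← h.sum_a3]
    push_cast
    rfl
  have s1 : ∑ w ∈ Y n B p, f w = n ^ 2 + m := by
    have := h.sum_Y hy
    simp only [hf, hm]; exact_mod_cast this
  have s2 : ∑ w ∈ Y n B p, g w = n ^ 2 + m := by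
    have := h.sum_Y hz
    simp only [hg, hm]; exact_mod_cast this
  have sumbl : ∀ u ∈ Y n B p, ∑ c ∈ bl B p u, (Y n B p ∩ B c).card = n ^ 2 + (Y n B p).card := by
    intro u hu
    rw [← h.sum_a3]; exact h.sum_Y hu
  have s3 : ∑ w ∈ Y n B p, f w * f w = n ^ 2 + m + (n + 1) * n ^ 2 := by
    have h1 := h.sum_mul hy (bl B p y) (fun c hc => (mem_bl.1 hc).1)
    rw [Finset.sum_add_distrib, sumbl y hy,
      Finset.sum_congr rfl (g := fun _ => n ^ 2) (fun c hc => if_pos (mem_bl.1 hc).2),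
      Finset.sum_const, h.card_bl hy, smul_eq_mul] at h1
    simp only [hf, hm]
    have h1' : ∑ w ∈ Y n B p, a3 B p y w * a3 B p y w = n ^ 2 + (Y n B p).card + (n + 1) * n ^ 2 := h1
    exact_mod_cast h1'
  have s4 : ∑ w ∈ Y n B p, g w * g w = n ^ 2 + m + (n + 1) * n ^ 2 := by
    have h1 := h.sum_mul hz (bl B p z) (fun c hc => (mem_bl.1 hc).1)
    rw [Finset.sum_add_distrib, sumbl z hz,
      Finset.sum_congr rfl (g := fun _ => n ^ 2) (fun c hc => if_pos (mem_bl.1 hc).2),
      Finset.sum_const, h.card_bl hz, smul_eq_mul] at h1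
    simp only [hg, hm]
    have h1' : ∑ w ∈ Y n B p, a3 B p z w * a3 B p z w = n ^ 2 + (Y n B p).card + (n + 1) * n ^ 2 := h1
    exact_mod_cast h1'
  have s5 : ∑ w ∈ Y n B p, f w * g w = n ^ 2 + m + a * n ^ 2 := by
    have h1 := h.sum_mul hz (bl B p y) (fun c hc => (mem_bl.1 hc).1)
    rw [Finset.sum_add_distrib, sumbl y hy, ← Finset.sum_filter, Finset.sum_const, smul_eq_mul] at h1
    simp only [hf, hg, hm, ha]
    have h1' : ∑ w ∈ Y n B p, a3 B p y w * a3 B p z w =
        n ^ 2 + (Y n B p).card + a3 B p y z * n ^ 2 := h1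
    exact_mod_cast h1'
  have s6 : ∑ w ∈ Y n B p, χ w = 2 * n := by
    rw [hχ, Finset.sum_boole, Finset.filter_mem_eq_inter, ht]
    push_cast; ring
  have s7 : ∑ w ∈ Y n B p, χ w * χ w = 2 * n := by
    rw [← s6]
    refine Finset.sum_congr rfl fun w _ => ?_
    simp only [hχ]
    split_ifs <;> simp
  have s8 : ∑ w ∈ Y n B p, χ w * f w = 2 * n + n ^ 2 := by
    have h1 := h.sum_block hy (mem_bl.1 hb).1
    rw [if_pos (mem_bl.1 hb).2, ht, ← Finset.filter_mem_eq_inter, Finset.sum_filter] at h1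
    have e : ∀ w ∈ Y n B p, χ w * f w = ((if w ∈ B b then a3 B p y w else 0 : ℕ) : ℤ) := by
      intro w _
      simp only [hχ, hf]
      split_ifs <;> simp
    rw [Finset.sum_congr rfl e]
    exact_mod_cast h1
  have s9 : ∑ w ∈ Y n B p, χ w * g w = 2 * n + n ^ 2 := by
    have h1 := h.sum_block hz (mem_bl.1 hb).1
    rw [if_pos hzb, ht, ← Finset.filter_mem_eq_inter, Finset.sum_filter] at h1
    have e : ∀ w ∈ Y n B p, χ w * g w = ((if w ∈ B b then a3 B p z w else 0 : ℕ) : ℤ) := by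
      intro w _
      simp only [hχ, hg]
      split_ifs <;> simp
    rw [Finset.sum_congr rfl e]
    exact_mod_cast h1
  have s10 : ∑ w ∈ Y n B p, A w * f w = T + a * n ^ 2 := by
    have h1 := h.sum_mul hy S (fun c hc => (mem_bl.1 (mem_filter.1 hc).1).1)
    rw [Finset.sum_add_distrib, Finset.sum_congr rfl (g := fun _ => n ^ 2)
      (fun c hc => if_pos (mem_bl.1 (mem_filter.1 hc).1).2), Finset.sum_const, smul_eq_mul, hSc] at h1
    rw [hTn, ha]
    have h1' : ∑ w ∈ Y n B p, (S.filter fun c => w ∈ B c).card * a3 B p y w =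
        ∑ c ∈ S, (Y n B p ∩ B c).card + a3 B p y z * n ^ 2 := h1
    simp only [hA, hf]
    exact_mod_cast h1'
  have s11 : ∑ w ∈ Y n B p, A w * g w = T + a * n ^ 2 := by
    have h1 := h.sum_mul hz S (fun c hc => (mem_bl.1 (mem_filter.1 hc).1).1)
    rw [Finset.sum_add_distrib, Finset.sum_congr rfl (g := fun _ => n ^ 2)
      (fun c hc => if_pos (mem_filter.1 hc).2), Finset.sum_const, smul_eq_mul, hSc] at h1
    rw [hTn, ha]
    have h1' : ∑ w ∈ Y n B p, (S.filter fun c => w ∈ B c).card * a3 B p z w =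
        ∑ c ∈ S, (Y n B p ∩ B c).card + a3 B p y z * n ^ 2 := h1
    simp only [hA, hg]
    exact_mod_cast h1'
  have pairS : ∀ c ∈ S, ∑ d ∈ S, (Y n B p ∩ B c ∩ B d).card =
      (Y n B p ∩ B c).card + (a3 B p y z - 1) * n := by
    intro c hc
    rw [← Finset.add_sum_erase _ _ hc, Finset.inter_assoc, Finset.inter_self,
      Finset.sum_congr rfl (g := fun _ => n), Finset.sum_const, Finset.card_erase_of_mem hc, hSc,
      smul_eq_mul]
    intro d hd
    rw [mem_erase] at hd
    exact h.inter_n hy (mem_filter.1 hc).1 (mem_filter.1 hd.2).1 (Ne.symm hd.1)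
  have ha1 : 1 ≤ a3 B p y z := by rw [← hSc]; exact Finset.card_pos.2 ⟨b, hbS⟩
  have s12 : ∑ w ∈ Y n B p, A w * χ w = n * (a + 1) := by
    have h1 := pairS b hbS
    rw [ht] at h1
    have h2 : ∑ w ∈ Y n B p ∩ B b, (S.filter fun c => w ∈ B c).card =
        ∑ d ∈ S, (Y n B p ∩ B b ∩ B d).card := h.sum_a3 _ _
    rw [h1, ← Finset.filter_mem_eq_inter, Finset.sum_filter] at h2
    have e : ∀ w ∈ Y n B p, A w * χ w =
        ((if w ∈ B b then (S.filter fun c => w ∈ B c).card else 0 : ℕ) : ℤ) := by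
      intro w _
      simp only [hχ, hA]
      split_ifs <;> simp
    rw [Finset.sum_congr rfl e]
    have h3 : ((∑ w ∈ Y n B p, if w ∈ B b then (S.filter fun c => w ∈ B c).card else 0 : ℕ) : ℤ) =
        ((2 * n + (a3 B p y z - 1) * n : ℕ) : ℤ) := by rw [h2]
    push_cast [Nat.cast_sub ha1] at h3 ⊢
    rw [h3, ha]
    ring
  have s13 : ∑ w ∈ Y n B p, A w * A w = T + a * (a - 1) * n := by
    have h1 : ∑ w ∈ Y n B p, (S.filter fun c => w ∈ B c).card * (S.filter fun c => w ∈ B c).card =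
        ∑ c ∈ S, ∑ d ∈ S, (Y n B p ∩ B c ∩ B d).card := by
      have e : ∀ c ∈ S, ∑ d ∈ S, (Y n B p ∩ B c ∩ B d).card =
          ∑ w ∈ Y n B p, if w ∈ B c then (S.filter fun d => w ∈ B d).card else 0 := by
        intro c _
        rw [← h.sum_a3, ← Finset.filter_mem_eq_inter, Finset.sum_filter]
      rw [Finset.sum_congr rfl e, Finset.sum_comm]
      refine Finset.sum_congr rfl fun w _ => ?_
      rw [← Finset.sum_filter, Finset.sum_const, smul_eq_mul]
    rw [Finset.sum_congr rfl pairS, Finset.sum_add_distrib, Finset.sum_const, smul_eq_mul, hSc] at h1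
    have h3 : ((∑ w ∈ Y n B p, (S.filter fun c => w ∈ B c).card * (S.filter fun c => w ∈ B c).card : ℕ)
        : ℤ) = ((∑ c ∈ S, (Y n B p ∩ B c).card + a3 B p y z * ((a3 B p y z - 1) * n) : ℕ) : ℤ) := by
      rw [h1]
    rw [Nat.cast_add, ← hTn] at h3
    push_cast [Nat.cast_sub ha1] at h3
    rw [h3, ha]
    ring
  have s14 : ∑ _w ∈ Y n B p, (1 : ℤ) = m := by simp [hm]
  have hpos : 0 ≤ ∑ w ∈ Y n B p, (f w + g w - 1 - (n - a) * χ w - 2 * A w) ^ 2 :=
    Finset.sum_nonneg fun w _ => sq_nonneg _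
  have hexp : ∑ w ∈ Y n B p, (f w + g w - 1 - (n - a) * χ w - 2 * A w) ^ 2 =
      ∑ w ∈ Y n B p, f w * f w + ∑ w ∈ Y n B p, g w * g w + ∑ _w ∈ Y n B p, (1 : ℤ) +
      (n - a) ^ 2 * ∑ w ∈ Y n B p, χ w * χ w + 4 * ∑ w ∈ Y n B p, A w * A w +
      2 * ∑ w ∈ Y n B p, f w * g w - 2 * ∑ w ∈ Y n B p, f w - 2 * ∑ w ∈ Y n B p, g w -
      2 * (n - a) * ∑ w ∈ Y n B p, χ w * f w - 2 * (n - a) * ∑ w ∈ Y n B p, χ w * g w -
      4 * ∑ w ∈ Y n B p, A w * f w - 4 * ∑ w ∈ Y n B p, A w * g w +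
      2 * (n - a) * ∑ w ∈ Y n B p, χ w + 4 * ∑ w ∈ Y n B p, A w +
      4 * (n - a) * ∑ w ∈ Y n B p, A w * χ w := by
    simp only [Finset.mul_sum, ← Finset.sum_add_distrib, ← Finset.sum_sub_distrib]
    refine Finset.sum_congr rfl fun w _ => ?_
    ring
  rw [hexp, s1, s2, s3, s4, s5, s6, s7, s8, s9, s10, s11, s12, s13, s14, ← hT] at hpos
  nlinarith [hpos]

/-- **The sharp local gap for `m = 4`.** -/
theorem gap_four (p : X) (hp : (Y n B p).Nonempty) : 2 * n ^ 2 ≤ (Y n B p).card := by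
  obtain ⟨y, hy⟩ := hp
  by_contra hlt
  push Not at hlt
  have hn := h.n2
  obtain ⟨s, hs⟩ := h.dvd_all p
  have hsn : s < 2 * n := by
    rw [hs] at hlt
    have : n * s < n * (2 * n) := by
      calc n * s < 2 * n ^ 2 := hlt
        _ = n * (2 * n) := by ring
    exact Nat.lt_of_mul_lt_mul_left this
  have hsum : ∑ b ∈ bl B p y, (Y n B p ∩ B b).card = n ^ 2 + (Y n B p).card := by
    rw [← h.sum_a3]; exact h.sum_Y hy
  -- a block with `2 n` short points
  obtain ⟨b, hb, hb2⟩ : ∃ b ∈ bl B p y, (Y n B p ∩ B b).card < 3 * n := by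
    by_contra hcon
    push Not at hcon
    have h1 := Finset.card_nsmul_le_sum _ _ _ hcon
    rw [hsum, h.card_bl hy, smul_eq_mul] at h1
    nlinarith
  have ht : (Y n B p ∩ B b).card = 2 * n := by
    have h1 := h.block_gap p y hy b (mem_bl.1 hb).1 (mem_bl.1 hb).2
    obtain ⟨t, htt⟩ := h.dvd_block p b (mem_bl.1 hb).1
    rw [htt] at h1 hb2 ⊢
    have h2 : t < 3 := by
      have : n * t < n * 3 := by omega
      exact Nat.lt_of_mul_lt_mul_left this
    have h3 : 2 ≤ t := by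
      have : n * 2 ≤ n * t := by omega
      exact Nat.le_of_mul_le_mul_left this (by omega)
    have : t = 2 := by omega
    rw [this]; ring
  -- all values are `1` or `n + 1`
  have hval : ∀ z ∈ Y n B p ∩ B b, a3 B p y z = 1 ∨ a3 B p y z = n + 1 := by
    intro z hz
    rw [mem_inter] at hz
    have h1 := h.key hy hz.1 hb hz.2 ht
    have h2 : 1 ≤ a3 B p y z := by
      rw [a3]; exact Finset.card_pos.2 ⟨b, mem_filter.2 ⟨hb, hz.2⟩⟩
    have h3 : a3 B p y z ≤ n + 1 := by
      rw [a3, ← h.card_bl hy]; exact Finset.card_le_card (Finset.filter_subset _ _)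
    by_contra hcon
    push Not at hcon
    obtain ⟨i, hi⟩ : ∃ i, a3 B p y z = i + 2 := ⟨a3 B p y z - 2, by omega⟩
    obtain ⟨j, hj⟩ : ∃ j, n = i + 2 + j := ⟨n - (i + 2), by omega⟩
    rw [hs, hi] at h1
    push_cast at h1
    have h4 : (2 : ℤ) * (i + 2 - 1) * (n + 1 - (i + 2)) + 2 ≤ s := by
      have hn0 : (0 : ℤ) < n := by exact_mod_cast (by omega : 0 < n)
      exact le_of_mul_le_mul_left h1 hn0
    have h5 : (s : ℤ) < 2 * n := by exact_mod_cast hsn
    have h6 : (n : ℤ) = i + 2 + j := by exact_mod_cast hj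
    rw [h6] at h4 h5
    nlinarith [Int.natCast_nonneg i, Int.natCast_nonneg j,
      mul_nonneg (Int.natCast_nonneg i) (Int.natCast_nonneg j)]
  have h1 := h.sum_block hy (mem_bl.1 hb).1
  rw [if_pos (mem_bl.1 hb).2, ht] at h1
  have h2 : ∑ w ∈ Y n B p ∩ B b, a3 B p y w =
      (Y n B p ∩ B b).card + n * ((Y n B p ∩ B b).filter fun w => a3 B p y w = n + 1).card := by
    rw [Finset.card_filter, Finset.mul_sum, Finset.card_eq_sum_ones, ← Finset.sum_add_distrib]
    refine Finset.sum_congr rfl fun w hw => ?_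
    rcases hval w hw with h3 | h3
    · rw [h3, if_neg (by omega)]; simp
    · rw [h3, if_pos rfl]; ring
  rw [h1, ht] at h2
  have h3 : n ≤ ((Y n B p ∩ B b).filter fun w => a3 B p y w = n + 1).card := by
    have : n * n ≤ n * ((Y n B p ∩ B b).filter fun w => a3 B p y w = n + 1).card := by
      have e : n ^ 2 = n * n := sq n
      omega
    exact Nat.le_of_mul_le_mul_left this (by omega)
  have h4 : ((Y n B p ∩ B b).filter fun w => a3 B p y w = n + 1) ⊆ (L B p y).erase p := by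
    intro w hw
    rw [mem_filter, mem_inter] at hw
    rw [mem_erase]
    refine ⟨(mem_Y.1 hw.1.1).1, ?_⟩
    rw [mem_L]
    intro c hc1 hc2
    have h5 : ((bl B p y).filter fun c => w ∈ B c) = bl B p y := by
      apply Finset.eq_of_subset_of_card_le (Finset.filter_subset _ _)
      rw [h.card_bl hy]
      exact hw.2.ge
    have h6 : c ∈ (bl B p y).filter fun c => w ∈ B c := by
      rw [h5]; exact mem_bl.2 ⟨hc1, hc2⟩
    exact (mem_filter.1 h6).2
  have h5 := Finset.card_le_card h4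
  rw [Finset.card_erase_of_mem (left_mem p y)] at h5
  have h6 := h.card_le (Ne.symm (mem_Y.1 hy).1)
  have h7 := (mem_Y.1 hy).2
  omega

end Dsg

end Pool.Agent.N345.DW
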