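import Pool.Agent.N345.DW.Basic

set_option autoImplicit false
set_option linter.unusedSectionVars false

/-!
# The local gap
-/

namespace Pool.Agent.N345.DW

open Finset

variable {X β : Type} [Fintype X] [Fintype β] [DecidableEq X] [DecidableEq β]

/-- the points joined to `p` by a short line -/
def Y (n : ℕ) (B : β → Finset X) (p : X) : Finset X :=
  univ.filter fun z => z ≠ p ∧ (L B p z).card ≠ n + 1

variable {B : β → Finset X} {n r : ℕ}

theorem mem_Y {p z : X} : z ∈ Y n B p ↔ z ≠ p ∧ (L B p z).card ≠ n + 1 := by simp [Y]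

namespace Dsg

variable (h : Dsg n r B)
include h

/-- sets which are unions of lines through `p`, as far as the long lines are concerned -/
theorem dvd_long (p : X) (S : Finset X)
    (hS : ∀ z ∈ S, z ≠ p → (L B p z).card = n + 1 → L B p z ⊆ S) :
    n ∣ (S.filter fun z => z ≠ p ∧ (L B p z).card = n + 1).card := by
  classical
  rw [Finset.card_eq_sum_card_image (fun z => L B p z)]
  refine Finset.dvd_sum fun ℓ hℓ => ?_
  obtain ⟨w, hw, rfl⟩ := Finset.mem_image.1 hℓ
  simp only [mem_filter] at hw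
  obtain ⟨hwS, hwp, hwc⟩ := hw
  have e : ((S.filter fun z => z ≠ p ∧ (L B p z).card = n + 1).filter
      fun z => L B p z = L B p w) = (L B p w).erase p := by
    ext z
    simp only [mem_filter, mem_erase]
    constructor
    · rintro ⟨⟨h1, h2, h3⟩, h4⟩
      exact ⟨h2, h4 ▸ right_mem p z⟩
    · rintro ⟨h1, h2⟩
      have h3 := h.L_eq (Ne.symm hwp) (Ne.symm h1) (left_mem p w) h2
      exact ⟨⟨hS w hwS hwp hwc h2, h1, by rw [h3]; exact hwc⟩, h3⟩
  rw [e, Finset.card_erase_of_mem (left_mem p w), hwc, Nat.add_sub_cancel]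

theorem dvd_short (p : X) (S : Finset X) (hp : p ∈ S)
    (hS : ∀ z ∈ S, z ≠ p → (L B p z).card = n + 1 → L B p z ⊆ S)
    (hc : n ∣ S.card - 1) : n ∣ (Y n B p ∩ S).card := by
  have h1 := h.dvd_long p S hS
  have h2 : (S.filter fun z => z ≠ p ∧ (L B p z).card = n + 1).card + (Y n B p ∩ S).card =
      S.card - 1 := by
    rw [← Finset.card_erase_of_mem hp, ← Finset.card_filter_add_card_filter_not (s := S.erase p)
      (fun z => (L B p z).card = n + 1)]
    congr 2
    · ext z; simp only [mem_filter, mem_erase]; tauto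
    · ext z; simp only [mem_filter, mem_erase, mem_inter, mem_Y]; tauto
  exact (Nat.dvd_add_right h1).1 (h2 ▸ hc)

theorem dvd_block (p : X) (b : β) (hp : p ∈ B b) : n ∣ (Y n B p ∩ B b).card := by
  apply h.dvd_short p (B b) hp
  · intro z hz _ _
    exact L_sub (mem_bl.2 ⟨hp, hz⟩)
  · rw [h.size b, Nat.add_sub_cancel]
    exact Dvd.intro_left _ rfl

theorem dvd_inter (p : X) (b c : β) (hbc : b ≠ c) (hb : p ∈ B b) (hc : p ∈ B c) :
    n ∣ (Y n B p ∩ (B b ∩ B c)).card := by
  apply h.dvd_short p _ (mem_inter.2 ⟨hb, hc⟩)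
  · intro z hz _ _
    rw [mem_inter] at hz
    exact Finset.subset_inter (L_sub (mem_bl.2 ⟨hb, hz.1⟩)) (L_sub (mem_bl.2 ⟨hc, hz.2⟩))
  · rw [h.inter b c hbc, Nat.add_sub_cancel]
    exact Dvd.intro_left _ rfl

theorem dvd_all (p : X) : n ∣ (Y n B p).card := by
  have := h.dvd_short p univ (mem_univ p) (fun _ _ _ _ => subset_univ _)
    (by rw [Finset.card_univ, h.cX, Nat.add_sub_cancel]; exact Dvd.intro_left _ rfl)
  rwa [Finset.inter_univ] at this

/-- blocks through `p` contain no or many points joined to `p` by a short line -/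
theorem block_gap (p y : X) (hy : y ∈ Y n B p) (b : β) (hp : p ∈ B b) (hyb : y ∈ B b) :
    2 * n ≤ (Y n B p ∩ B b).card := by
  obtain ⟨t, ht⟩ := h.dvd_block p b hp
  have hpos : 0 < (Y n B p ∩ B b).card := Finset.card_pos.2 ⟨y, mem_inter.2 ⟨hy, hyb⟩⟩
  by_contra hlt
  push Not at hlt
  have hn := h.n2
  have ht1 : t = 1 := by
    have h1 : t < 2 := by
      by_contra h2
      push Not at h2
      have : n * 2 ≤ n * t := Nat.mul_le_mul_left _ h2
      omega
    have h2 : t ≠ 0 := by rintro rfl; omega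
    omega
  rw [ht1, mul_one] at ht
  rw [mem_Y] at hy
  obtain ⟨hyp, hyc⟩ := hy
  have hsub : insert p (Y n B p ∩ B b) ⊆ L B p y := by
    intro z hz
    rw [mem_insert] at hz
    rcases hz with rfl | hz
    · exact left_mem _ _
    · rw [mem_L]
      intro c hpc hyc'
      by_cases hbc : b = c
      · rw [← hbc]; exact (mem_inter.1 hz).2
      · obtain ⟨u, hu⟩ := h.dvd_inter p b c hbc hp hpc
        have hle : (Y n B p ∩ (B b ∩ B c)) ⊆ Y n B p ∩ B b := by
          intro w hw
          simp only [mem_inter] at hw ⊢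
          tauto
        have hpos2 : 0 < (Y n B p ∩ (B b ∩ B c)).card :=
          Finset.card_pos.2 ⟨y, mem_inter.2 ⟨mem_Y.2 ⟨hyp, hyc⟩, mem_inter.2 ⟨hyb, hyc'⟩⟩⟩
        have hge : (Y n B p ∩ B b).card ≤ (Y n B p ∩ (B b ∩ B c)).card := by
          rw [ht, hu]
          have : u ≠ 0 := by rintro rfl; omega
          exact Nat.le_mul_of_pos_right _ (by omega)
        have := Finset.eq_of_subset_of_card_le hle hge
        rw [← this] at hz
        exact (mem_inter.1 (mem_inter.1 hz).2).2
  have h3 := Finset.card_le_card hsub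
  rw [Finset.card_insert_of_notMem (fun hh => (mem_Y.1 (mem_inter.1 hh).1).1 rfl), ht] at h3
  have h4 := h.card_le (Ne.symm hyp)
  omega

theorem total (p y : X) (hy : y ∈ Y n B p) :
    ∑ b ∈ bl B p y, (Y n B p ∩ B b).card = n * (r * n + 1 - r) + r * (Y n B p).card := by
  classical
  have hyp := (mem_Y.1 hy).1
  have h1 : ∑ b ∈ bl B p y, ((univ.erase p) ∩ B b).card = (r * n + 1) * ((r * n + 1) * n) := by
    rw [Finset.sum_congr rfl (g := fun _ => (r * n + 1) * n), Finset.sum_const, smul_eq_mul, bl,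
      h.pair p y (Ne.symm hyp)]
    intro b hb
    have : (univ.erase p) ∩ B b = (B b).erase p := by
      ext z; simp
    rw [this, Finset.card_erase_of_mem (mem_bl.1 hb).1, h.size, Nat.add_sub_cancel]
  have h2 : ∀ S : Finset X, ∑ b ∈ bl B p y, (S ∩ B b).card =
      ∑ z ∈ S, (univ.filter fun b => p ∈ B b ∧ z ∈ B b ∧ y ∈ B b).card := by
    intro S
    have e1 : ∀ b, (S ∩ B b).card = ∑ z ∈ S, if z ∈ B b then 1 else 0 := by
      intro b
      rw [← Finset.card_filter, Finset.filter_mem_eq_inter]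
    simp_rw [e1]
    rw [Finset.sum_comm]
    refine Finset.sum_congr rfl fun z _ => ?_
    rw [← Finset.card_filter, bl, Finset.filter_filter]
    congr 1
    ext b
    simp only [mem_filter, mem_univ, true_and]
    tauto
  have h3 : (univ.erase p : Finset X) = Y n B p ∪ ((univ.erase p) \ Y n B p) := by
    rw [Finset.union_sdiff_of_subset]
    intro z hz
    rw [mem_erase]
    exact ⟨(mem_Y.1 hz).1, mem_univ _⟩
  have h4 : ∑ z ∈ (univ.erase p) \ Y n B p,
      (univ.filter fun b => p ∈ B b ∧ z ∈ B b ∧ y ∈ B b).card =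
        r * ((((r * n + 1) * n + 1) * n) - (Y n B p).card) := by
    rw [Finset.sum_congr rfl (g := fun _ => r), Finset.sum_const, smul_eq_mul, mul_comm]
    · congr 1
      rw [Finset.card_sdiff_of_subset, Finset.card_erase_of_mem (mem_univ p), Finset.card_univ, h.cX,
        Nat.add_sub_cancel]
      intro z hz
      rw [mem_erase]
      exact ⟨(mem_Y.1 hz).1, mem_univ _⟩
    · intro z hz
      simp only [mem_sdiff, mem_erase, mem_univ, and_true, mem_Y, not_and, not_not] at hz
      obtain ⟨hzp, hzc⟩ := hz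
      have hzc := hzc hzp
      apply h.three (Ne.symm hzp) hzc
      intro hyz
      have := h.L_eq (Ne.symm hzp) (Ne.symm hyp) (left_mem p z) hyz
      exact (mem_Y.1 hy).2 (by rw [this]; exact hzc)
  have h5 : (Y n B p).card ≤ ((r * n + 1) * n + 1) * n := by
    have : (Y n B p).card ≤ (univ.erase p : Finset X).card := by
      apply Finset.card_le_card
      intro z hz
      rw [mem_erase]
      exact ⟨(mem_Y.1 hz).1, mem_univ _⟩
    rwa [Finset.card_erase_of_mem (mem_univ p), Finset.card_univ, h.cX, Nat.add_sub_cancel] at this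
  rw [h2, h3, Finset.sum_union disjoint_sdiff, h4, ← h2] at h1
  have h6 : r ≤ r * n + 1 := by
    have := h.n2
    nlinarith
  obtain ⟨c, hc⟩ : ∃ c, ((r * n + 1) * n + 1) * n = (Y n B p).card + c := ⟨_, (Nat.add_sub_cancel' h5).symm⟩
  obtain ⟨d, hd⟩ : ∃ d, r * n + 1 = r + d := ⟨_, (Nat.add_sub_cancel' h6).symm⟩
  rw [hc, Nat.add_sub_cancel_left] at h1
  have e1 : r * n + 1 - r = d := by omega
  rw [e1]
  zify at h1 hc hd ⊢
  linear_combination h1 + r * hc + n * hd

/-- **Local gap.** -/
theorem gap (hr : 1 ≤ r) (p : X) (hp : (Y n B p).Nonempty) : n * (n + 2) ≤ (Y n B p).card := by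
  obtain ⟨y, hy⟩ := hp
  have h1 := h.total p y hy
  have h2 : (2 * n) * (r * n + 1) ≤ ∑ b ∈ bl B p y, (Y n B p ∩ B b).card := by
    have : (bl B p y).card • (2 * n) ≤ ∑ b ∈ bl B p y, (Y n B p ∩ B b).card :=
      Finset.card_nsmul_le_sum _ _ _ fun b hb =>
        h.block_gap p y hy b (mem_bl.1 hb).1 (mem_bl.1 hb).2
    rw [bl, h.pair p y (Ne.symm (mem_Y.1 hy).1), smul_eq_mul, mul_comm] at this
    exact this
  obtain ⟨t, ht⟩ := h.dvd_all p
  have hn := h.n2
  rw [h1, ht] at h2
  rw [ht]
  apply Nat.mul_le_mul_left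
  have h6 : r ≤ r * n + 1 := by nlinarith
  obtain ⟨d, hd⟩ : ∃ d, r * n + 1 = r + d := ⟨_, (Nat.add_sub_cancel' h6).symm⟩
  have e1 : r * n + 1 - r = d := by omega
  rw [e1] at h2
  have h7 : 2 * (r * n + 1) ≤ d + r * t := by
    have : n * (2 * (r * n + 1)) ≤ n * (d + r * t) := by
      calc n * (2 * (r * n + 1)) = 2 * n * (r * n + 1) := by ring
        _ ≤ _ := h2
        _ = n * (d + r * t) := by ring
    exact Nat.le_of_mul_le_mul_left this (by omega)
  have h8 : r * (n + 1) < r * t := by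
    have : 2 * (r * n + 1) = r * n + 1 + r + d := by omega
    have e : r * (n + 1) = r * n + r := by ring
    omega
  have := Nat.lt_of_mul_lt_mul_left h8
  omega

end Dsg

end Pool.Agent.N345.DW
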