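import Pool.Agent.N345.DW.Four

set_option autoImplicit false
set_option linter.unusedSectionVars false

/-!
# The local gap in all dimensions
-/

namespace Pool.Agent.N345.DW

open Finset

variable {X β : Type} [Fintype X] [Fintype β] [DecidableEq X] [DecidableEq β]
variable {B : β → Finset X} {n r : ℕ}

theorem sum_cnt (B : β → Finset X) (S : Finset X) (T : Finset β) :
    ∑ w ∈ S, (T.filter fun c => w ∈ B c).card = ∑ c ∈ T, (S ∩ B c).card := by
  simp_rw [Finset.card_filter]
  rw [Finset.sum_comm]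
  refine Finset.sum_congr rfl fun c _ => ?_
  rw [← Finset.card_filter, Finset.filter_mem_eq_inter]

namespace Dsg

variable (h : Dsg n r B)
include h

theorem g_card_bl {p y : X} (hy : y ∈ Y n B p) : (bl B p y).card = r * n + 1 := by
  rw [bl, h.pair p y (Ne.symm (mem_Y.1 hy).1)]

/-- `N = λ - r` -/
theorem exists_N : ∃ N, r * n + 1 = N + r ∧ 1 ≤ N := by
  have hn := h.n2
  have : r ≤ r * n := Nat.le_mul_of_pos_right _ (by omega)
  exact ⟨r * n + 1 - r, by omega, by omega⟩

/-- the sum of `a3 p y` over the short points of a block through `p` -/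
theorem g_sum_block {N : ℕ} (hN : r * n + 1 = N + r) {p y : X} (hy : y ∈ Y n B p) {c : β}
    (hc : p ∈ B c) :
    ∑ w ∈ Y n B p ∩ B c, a3 B p y w =
      r * (Y n B p ∩ B c).card + if y ∈ B c then n * N else 0 := by
  have hyp := (mem_Y.1 hy).1
  have h1 : ∑ w ∈ (B c).erase p, a3 B p y w = ∑ d ∈ bl B p y, ((B c).erase p ∩ B d).card :=
    sum_cnt _ _ _
  have h2 : ∀ d ∈ bl B p y, (((B c).erase p ∩ B d).card : ℤ) =
      r * n + if d = c then ((r * n + 1) * n - r * n : ℤ) else 0 := by
    intro d hd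
    have e1 : (B c).erase p ∩ B d = (B c ∩ B d).erase p := by
      ext w; simp only [mem_inter, mem_erase]; tauto
    rw [e1, Finset.card_erase_of_mem (mem_inter.2 ⟨hc, (mem_bl.1 hd).1⟩)]
    by_cases hdc : d = c
    · rw [if_pos hdc, hdc, Finset.inter_self, h.size, Nat.add_sub_cancel]
      push_cast
      ring
    · rw [if_neg hdc, h.inter c d (Ne.symm hdc), Nat.add_sub_cancel]
      push_cast
      ring
  have h1z : (∑ w ∈ (B c).erase p, a3 B p y w : ℕ) =
      ((r * n + 1) * (r * n) : ℤ) + if c ∈ bl B p y then ((r * n + 1) * n - r * n : ℤ) else 0 := by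
    rw [h1]
    push_cast
    rw [Finset.sum_congr rfl h2, Finset.sum_add_distrib, Finset.sum_const, h.g_card_bl hy,
      Finset.sum_ite_eq', nsmul_eq_mul]
    push_cast
    ring
  have h3 : (B c).erase p = (Y n B p ∩ B c) ∪ ((B c).erase p \ Y n B p) := by
    ext w; simp only [mem_erase, mem_union, mem_inter, mem_sdiff, mem_Y]; tauto
  have hdis : Disjoint (Y n B p ∩ B c) ((B c).erase p \ Y n B p) := by
    rw [Finset.disjoint_left]
    intro w hw hw2
    exact (mem_sdiff.1 hw2).2 (mem_inter.1 hw).1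
  have h4 : ∑ w ∈ (B c).erase p \ Y n B p, a3 B p y w = r * ((B c).erase p \ Y n B p).card := by
    rw [mul_comm, ← smul_eq_mul, ← Finset.sum_const]
    refine Finset.sum_congr rfl fun w hw => ?_
    simp only [mem_sdiff, mem_erase, mem_Y, not_and, not_not] at hw
    obtain ⟨⟨hwp, _⟩, hwl⟩ := hw
    have hwl := hwl hwp
    have h5 := h.three (z := y) (Ne.symm hwp) hwl (fun hyw => by
      have := h.L_eq (Ne.symm hwp) (Ne.symm hyp) (left_mem p w) hyw
      exact (mem_Y.1 hy).2 (by rw [this]; exact hwl))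
    rw [← h5, a3, bl, Finset.filter_filter]
    congr 1
    ext d; simp only [mem_filter, mem_univ, true_and]; tauto
  have h5 : ((B c).erase p).card = (r * n + 1) * n := by
    rw [Finset.card_erase_of_mem hc, h.size, Nat.add_sub_cancel]
  have h6 : ((B c).erase p).card = (Y n B p ∩ B c).card + ((B c).erase p \ Y n B p).card := by
    conv_lhs => rw [h3]
    exact Finset.card_union_of_disjoint hdis
  rw [h3, Finset.sum_union hdis, h4] at h1z
  have e : (c ∈ bl B p y) ↔ y ∈ B c := by
    rw [mem_bl]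
    simp [hc]
  rw [h5] at h6
  zify at hN h6 ⊢
  push_cast at h1z
  by_cases hyc : y ∈ B c
  · rw [if_pos (e.2 hyc)] at h1z
    rw [if_pos hyc]
    push_cast
    linear_combination h1z + r * h6 + n * hN
  · rw [if_neg (fun hh => hyc (e.1 hh))] at h1z
    rw [if_neg hyc]
    push_cast
    linear_combination h1z + r * h6

theorem g_sum_Y {N : ℕ} (hN : r * n + 1 = N + r) {p y : X} (hy : y ∈ Y n B p) :
    ∑ w ∈ Y n B p, a3 B p y w = n * N + r * (Y n B p).card := by
  have := h.total p y hy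
  unfold a3
  rw [sum_cnt, this, hN, Nat.add_sub_cancel]

theorem g_sum_mul {N : ℕ} (hN : r * n + 1 = N + r) {p y : X} (hy : y ∈ Y n B p) (T : Finset β)
    (hT : ∀ c ∈ T, p ∈ B c) :
    ∑ w ∈ Y n B p, (T.filter fun c => w ∈ B c).card * a3 B p y w =
      ∑ c ∈ T, (r * (Y n B p ∩ B c).card + if y ∈ B c then n * N else 0) := by
  simp_rw [Finset.card_filter, Finset.sum_mul]
  rw [Finset.sum_comm]
  refine Finset.sum_congr rfl fun c hc => ?_
  rw [← h.g_sum_block hN hy (hT c hc), ← Finset.filter_mem_eq_inter, Finset.sum_filter]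
  refine Finset.sum_congr rfl fun w _ => ?_
  split_ifs <;> simp

/-- `∑ a_y a_z` over the short points -/
theorem g_ff {N : ℕ} (hN : r * n + 1 = N + r) {p y z : X} (hy : y ∈ Y n B p) (hz : z ∈ Y n B p) :
    ∑ w ∈ Y n B p, a3 B p y w * a3 B p z w =
      r * (n * N + r * (Y n B p).card) + a3 B p y z * (n * N) := by
  have h1 := h.g_sum_mul hN hz (bl B p y) (fun c hc => (mem_bl.1 hc).1)
  rw [Finset.sum_add_distrib, ← Finset.mul_sum, ← sum_cnt, ← Finset.sum_filter, Finset.sum_const,
    smul_eq_mul] at h1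
  have h2 := h.g_sum_Y hN hy
  unfold a3 at h2
  rw [h2] at h1
  exact h1

theorem a3_self {p y : X} (hy : y ∈ Y n B p) : a3 B p y y = r * n + 1 := by
  rw [a3, ← h.g_card_bl hy]
  congr 1
  apply Finset.filter_true_of_mem
  intro c hc
  exact (mem_bl.1 hc).2

theorem a3_le {p y : X} (hy : y ∈ Y n B p) (z : X) : a3 B p y z ≤ r * n + 1 := by
  rw [a3, ← h.g_card_bl hy]; exact Finset.card_le_card (Finset.filter_subset _ _)

omit h in
theorem a3_comm (p y z : X) : a3 B p y z = a3 B p z y := by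
  rw [a3, a3, bl, bl, Finset.filter_filter, Finset.filter_filter]
  congr 1
  ext c; simp only [mem_filter, mem_univ, true_and]; tauto

/-- first inequality -/
theorem ineq1 {N : ℕ} (hN : r * n + 1 = N + r) {p y z : X} (hy : y ∈ Y n B p) (hz : z ∈ Y n B p)
    (ha : a3 B p y z < r * n + 1) :
    2 * (n * N) ≤ (Y n B p).card * (r * n + 1 - a3 B p y z) := by
  obtain ⟨δ, hδ⟩ : ∃ δ, r * n + 1 = a3 B p y z + δ := ⟨_, (Nat.add_sub_cancel' ha.le).symm⟩
  have hδ0 : 0 < δ := by omega
  have e : r * n + 1 - a3 B p y z = δ := by omega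
  rw [e]
  have h1 := h.g_ff hN hy hy
  have h2 := h.g_ff hN hz hz
  have h3 := h.g_ff hN hy hz
  rw [h.a3_self hy] at h1
  rw [h.a3_self hz] at h2
  -- bound of the difference
  have hb : ∀ w ∈ Y n B p, ((a3 B p y w : ℤ) - a3 B p z w) ^ 2 ≤ δ ^ 2 := by
    intro w _
    have key : ∀ u v : X, u ∈ Y n B p → a3 B p u v + δ = r * n + 1 →
        a3 B p u w ≤ a3 B p v w + δ := by
      intro u v hu huv
      rw [a3]
      have e1 : (bl B p u).filter (fun c => w ∈ B c) ⊆
          ((bl B p v).filter fun c => w ∈ B c) ∪ (bl B p u).filter (fun c => ¬ v ∈ B c) := by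
        intro c hc
        simp only [mem_filter, mem_union, mem_bl] at hc ⊢
        tauto
      have e2 : ((bl B p u).filter (fun c => ¬ v ∈ B c)).card = δ := by
        have := Finset.card_filter_add_card_filter_not (s := bl B p u) (fun c => v ∈ B c)
        rw [h.g_card_bl hu] at this
        have h5 : ((bl B p u).filter fun c => v ∈ B c).card = a3 B p u v := rfl
        omega
      calc ((bl B p u).filter (fun c => w ∈ B c)).card ≤ _ := Finset.card_le_card e1
        _ ≤ _ := Finset.card_union_le _ _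
        _ = a3 B p v w + δ := by rw [e2]; rfl
    have k1 := key y z hy (by omega)
    have k2 := key z y hz (by rw [a3_comm]; omega)
    apply sq_le_sq'
    · have : (a3 B p z w : ℤ) ≤ a3 B p y w + δ := by exact_mod_cast k2
      linarith
    · have : (a3 B p y w : ℤ) ≤ a3 B p z w + δ := by exact_mod_cast k1
      linarith
  have h4 := Finset.sum_le_sum hb
  rw [Finset.sum_const, nsmul_eq_mul] at h4
  have h5 : ∑ w ∈ Y n B p, ((a3 B p y w : ℤ) - a3 B p z w) ^ 2 =
      ((∑ w ∈ Y n B p, a3 B p y w * a3 B p y w : ℕ) : ℤ) +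
      ((∑ w ∈ Y n B p, a3 B p z w * a3 B p z w : ℕ) : ℤ) -
      2 * ((∑ w ∈ Y n B p, a3 B p y w * a3 B p z w : ℕ) : ℤ) := by
    push_cast
    rw [Finset.mul_sum, ← Finset.sum_add_distrib, ← Finset.sum_sub_distrib]
    refine Finset.sum_congr rfl fun w _ => ?_
    ring
  rw [h5, h1, h2, h3] at h4
  have h6 : (2 : ℤ) * (n * N) * δ ≤ ((Y n B p).card * δ) * δ := by
    push_cast at h4
    have hδz : (r : ℤ) * n + 1 = a3 B p y z + δ := by exact_mod_cast hδ
    calc (2 : ℤ) * (n * N) * δ = r * (n * N + r * (Y n B p).card) + (r * n + 1) * (n * N) +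
          (r * (n * N + r * (Y n B p).card) + (r * n + 1) * (n * N)) -
          2 * (r * (n * N + r * (Y n B p).card) + (a3 B p y z) * (n * N)) := by
            linear_combination (-2 * (n : ℤ) * N) * hδz
      _ ≤ _ := h4
      _ = _ := by ring
  have h7 : (2 : ℤ) * (n * N) ≤ (Y n B p).card * δ :=
    le_of_mul_le_mul_right h6 (by exact_mod_cast hδ0)
  exact_mod_cast h7

/-- two blocks through `p` and `y` -/
theorem g_inter_ge {p y : X} (hy : y ∈ Y n B p) {b c : β} (hb : b ∈ bl B p y) (hc : c ∈ bl B p y)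
    (hbc : b ≠ c) : n ≤ (Y n B p ∩ B b ∩ B c).card ∧ n ∣ (Y n B p ∩ B b ∩ B c).card := by
  rw [mem_bl] at hb hc
  have hu := h.dvd_inter p b c hbc hb.1 hc.1
  rw [Finset.inter_assoc]
  exact ⟨Nat.le_of_dvd (Finset.card_pos.2 ⟨y, mem_inter.2 ⟨hy, mem_inter.2 ⟨hb.2, hc.2⟩⟩⟩) hu, hu⟩

/-- in a block with `2 n` short points -/
theorem two_n {N : ℕ} (hN : r * n + 1 = N + r) {p y z : X} (hy : y ∈ Y n B p) (hz : z ∈ Y n B p)
    {b : β} (hb : b ∈ bl B p y) (hzb : z ∈ B b) (ht : (Y n B p ∩ B b).card = 2 * n) :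
    ∑ c ∈ (bl B p y).filter (fun c => z ∈ B c), (Y n B p ∩ B b ∩ B c).card =
      n * (a3 B p y z + r) ∧ r ≤ a3 B p y z := by
  have hn := h.n2
  have h1 : ∑ c ∈ bl B p y, (Y n B p ∩ B b ∩ B c).card = r * (2 * n) + n * N := by
    rw [← sum_cnt, ← ht]
    have := h.g_sum_block hN hy (mem_bl.1 hb).1
    rw [if_pos (mem_bl.1 hb).2] at this
    exact this
  have h2 : ∀ c ∈ bl B p y, (Y n B p ∩ B b ∩ B c).card =
      n + if Y n B p ∩ B b ⊆ B c then n else 0 := by
    intro c hc
    by_cases hsub : Y n B p ∩ B b ⊆ B c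
    · rw [if_pos hsub, Finset.inter_eq_left.2 hsub, ht]; ring
    · rw [if_neg hsub, add_zero]
      have hbc : b ≠ c := by
        rintro rfl
        exact hsub Finset.inter_subset_right
      obtain ⟨h3, t, h4⟩ := h.g_inter_ge hy hb hc hbc
      have h5 : (Y n B p ∩ B b ∩ B c).card < 2 * n := by
        rw [← ht]
        apply Finset.card_lt_card
        refine ⟨Finset.inter_subset_left, fun hh => hsub fun w hw => (mem_inter.1 (hh hw)).2⟩
      rw [h4] at h3 h5 ⊢
      have h6 : t < 2 := by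
        have : n * t < n * 2 := by omega
        exact Nat.lt_of_mul_lt_mul_left this
      have h7 : t ≠ 0 := by rintro rfl; omega
      have : t = 1 := by omega
      rw [this, mul_one]
  have h3 : ((bl B p y).filter fun c => Y n B p ∩ B b ⊆ B c).card = r := by
    rw [Finset.sum_congr rfl h2, Finset.sum_add_distrib, Finset.sum_const, h.g_card_bl hy,
      ← Finset.sum_filter, Finset.sum_const, smul_eq_mul, smul_eq_mul, hN] at h1
    have : n * ((bl B p y).filter fun c => Y n B p ∩ B b ⊆ B c).card = n * r := by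
      have e : (N + r) * n = n * N + r * n := by ring
      have e2 : r * (2 * n) = r * n + r * n := by ring
      have e3 : n * r = r * n := mul_comm _ _
      rw [mul_comm n]
      omega
    exact Nat.eq_of_mul_eq_mul_left (by omega) this
  have h4 : (((bl B p y).filter fun c => z ∈ B c).filter fun c => Y n B p ∩ B b ⊆ B c) =
      (bl B p y).filter fun c => Y n B p ∩ B b ⊆ B c := by
    rw [Finset.filter_filter]
    ext c
    simp only [mem_filter, and_congr_right_iff, and_iff_right_iff_imp]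
    intro _ hsub
    exact hsub (mem_inter.2 ⟨hz, hzb⟩)
  constructor
  · rw [Finset.sum_congr rfl (fun c hc => h2 c (mem_filter.1 hc).1), Finset.sum_add_distrib,
      Finset.sum_const, ← Finset.sum_filter, Finset.sum_const, h4, h3, smul_eq_mul, smul_eq_mul]
    have : ((bl B p y).filter fun c => z ∈ B c).card = a3 B p y z := rfl
    rw [this]; ring
  · rw [← h3, ← h4]
    exact Finset.card_le_card (Finset.filter_subset _ _)

/-- second inequality -/
theorem ineq2 {N : ℕ} (hN : r * n + 1 = N + r) {p y z : X} (hy : y ∈ Y n B p) (hz : z ∈ Y n B p)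
    {b : β} (hb : b ∈ bl B p y) (hzb : z ∈ B b) (ht : (Y n B p ∩ B b).card = 2 * n) :
    (2 : ℤ) * n * ((a3 B p y z - r) * (r * n + 1 - a3 B p y z) + r ^ 2) ≤
      r ^ 2 * (Y n B p).card := by
  set a : ℤ := (a3 B p y z : ℤ) with ha
  set S := (bl B p y).filter fun c => z ∈ B c with hS
  have hSc : S.card = a3 B p y z := rfl
  have hbS : b ∈ S := mem_filter.2 ⟨hb, hzb⟩
  set f : X → ℤ := fun w => (a3 B p y w : ℤ) with hf
  set g : X → ℤ := fun w => (a3 B p z w : ℤ) with hg
  set χ : X → ℤ := fun w => if w ∈ B b then 1 else 0 with hχ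
  set A : X → ℤ := fun w => ((S.filter fun c => w ∈ B c).card : ℤ) with hA
  set m : ℤ := ((Y n B p).card : ℤ) with hm
  set T : ℤ := ∑ w ∈ Y n B p, A w with hT
  have hNz : (r : ℤ) * n + 1 = N + r := by exact_mod_cast hN
  have hTn : T = ((∑ c ∈ S, (Y n B p ∩ B c).card : ℕ) : ℤ) := by
    rw [hT, ← sum_cnt]
    push_cast
    rfl
  have s1 : ∑ w ∈ Y n B p, f w = n * N + r * m := by
    have := h.g_sum_Y hN hy
    simp only [hf, hm]; exact_mod_cast this
  have s2 : ∑ w ∈ Y n B p, g w = n * N + r * m := by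
    have := h.g_sum_Y hN hz
    simp only [hg, hm]; exact_mod_cast this
  have s3 : ∑ w ∈ Y n B p, f w * f w = r * (n * N + r * m) + (r * n + 1) * (n * N) := by
    have h1 := h.g_ff hN hy hy
    rw [h.a3_self hy] at h1
    simp only [hf, hm]; exact_mod_cast h1
  have s4 : ∑ w ∈ Y n B p, g w * g w = r * (n * N + r * m) + (r * n + 1) * (n * N) := by
    have h1 := h.g_ff hN hz hz
    rw [h.a3_self hz] at h1
    simp only [hg, hm]; exact_mod_cast h1
  have s5 : ∑ w ∈ Y n B p, f w * g w = r * (n * N + r * m) + a * (n * N) := by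
    have h1 := h.g_ff hN hy hz
    simp only [hf, hg, hm, ha]; exact_mod_cast h1
  have s6 : ∑ w ∈ Y n B p, χ w = 2 * n := by
    rw [hχ, Finset.sum_boole, Finset.filter_mem_eq_inter, ht]
    push_cast; ring
  have s7 : ∑ w ∈ Y n B p, χ w * χ w = 2 * n := by
    rw [← s6]
    refine Finset.sum_congr rfl fun w _ => ?_
    simp only [hχ]
    split_ifs <;> simp
  have s8 : ∑ w ∈ Y n B p, χ w * f w = r * (2 * n) + n * N := by
    have h1 := h.g_sum_block hN hy (mem_bl.1 hb).1
    rw [if_pos (mem_bl.1 hb).2, ht, ← Finset.filter_mem_eq_inter, Finset.sum_filter] at h1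
    have e : ∀ w ∈ Y n B p, χ w * f w = ((if w ∈ B b then a3 B p y w else 0 : ℕ) : ℤ) := by
      intro w _
      simp only [hχ, hf]
      split_ifs <;> simp
    rw [Finset.sum_congr rfl e]
    exact_mod_cast h1
  have s9 : ∑ w ∈ Y n B p, χ w * g w = r * (2 * n) + n * N := by
    have h1 := h.g_sum_block hN hz (mem_bl.1 hb).1
    rw [if_pos hzb, ht, ← Finset.filter_mem_eq_inter, Finset.sum_filter] at h1
    have e : ∀ w ∈ Y n B p, χ w * g w = ((if w ∈ B b then a3 B p z w else 0 : ℕ) : ℤ) := by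
      intro w _
      simp only [hχ, hg]
      split_ifs <;> simp
    rw [Finset.sum_congr rfl e]
    exact_mod_cast h1
  have s10 : ∑ w ∈ Y n B p, A w * f w = r * T + a * (n * N) := by
    have h1 := h.g_sum_mul hN hy S (fun c hc => (mem_bl.1 (mem_filter.1 hc).1).1)
    rw [Finset.sum_add_distrib, Finset.sum_congr rfl (g := fun _ => n * N)
      (fun c hc => if_pos (mem_bl.1 (mem_filter.1 hc).1).2), Finset.sum_const, smul_eq_mul, hSc,
      ← Finset.mul_sum] at h1
    rw [hTn, ha]
    have h1' : ∑ w ∈ Y n B p, (S.filter fun c => w ∈ B c).card * a3 B p y w =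
        r * ∑ c ∈ S, (Y n B p ∩ B c).card + a3 B p y z * (n * N) := h1
    simp only [hA, hf]
    exact_mod_cast h1'
  have s11 : ∑ w ∈ Y n B p, A w * g w = r * T + a * (n * N) := by
    have h1 := h.g_sum_mul hN hz S (fun c hc => (mem_bl.1 (mem_filter.1 hc).1).1)
    rw [Finset.sum_add_distrib, Finset.sum_congr rfl (g := fun _ => n * N)
      (fun c hc => if_pos (mem_filter.1 hc).2), Finset.sum_const, smul_eq_mul, hSc,
      ← Finset.mul_sum] at h1
    rw [hTn, ha]
    have h1' : ∑ w ∈ Y n B p, (S.filter fun c => w ∈ B c).card * a3 B p z w =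
        r * ∑ c ∈ S, (Y n B p ∩ B c).card + a3 B p y z * (n * N) := h1
    simp only [hA, hg]
    exact_mod_cast h1'
  have s12 : ∑ w ∈ Y n B p, A w * χ w = n * (a + r) := by
    have h1 := (h.two_n hN hy hz hb hzb ht).1
    rw [← hS, ← sum_cnt, ← Finset.filter_mem_eq_inter, Finset.sum_filter] at h1
    have e : ∀ w ∈ Y n B p, A w * χ w =
        ((if w ∈ B b then (S.filter fun c => w ∈ B c).card else 0 : ℕ) : ℤ) := by
      intro w _
      simp only [hχ, hA]
      split_ifs <;> simp
    rw [Finset.sum_congr rfl e, ha]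
    exact_mod_cast h1
  have s13 : ∑ w ∈ Y n B p, A w * A w ≤ r * T + a * (n * N) - a * (n * (r * n + 1 - a)) := by
    have h1 : ∑ w ∈ Y n B p, (S.filter fun c => w ∈ B c).card * (S.filter fun c => w ∈ B c).card =
        ∑ c ∈ S, ∑ d ∈ S, (Y n B p ∩ B c ∩ B d).card := by
      have e : ∀ c ∈ S, ∑ d ∈ S, (Y n B p ∩ B c ∩ B d).card =
          ∑ w ∈ Y n B p, if w ∈ B c then (S.filter fun d => w ∈ B d).card else 0 := by
        intro c _
        rw [← sum_cnt, ← Finset.filter_mem_eq_inter, Finset.sum_filter]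
      rw [Finset.sum_congr rfl e, Finset.sum_comm]
      refine Finset.sum_congr rfl fun w _ => ?_
      rw [← Finset.sum_filter, Finset.sum_const, smul_eq_mul]
    have h2 : ∀ c ∈ S, ((∑ d ∈ S, (Y n B p ∩ B c ∩ B d).card : ℕ) : ℤ) ≤
        r * (Y n B p ∩ B c).card + n * N - n * (r * n + 1 - a) := by
      intro c hc
      have hcb := (mem_filter.1 hc).1
      have h3 : ∑ d ∈ bl B p y, (Y n B p ∩ B c ∩ B d).card =
          r * (Y n B p ∩ B c).card + n * N := by
        rw [← sum_cnt]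
        have := h.g_sum_block hN hy (mem_bl.1 hcb).1
        rw [if_pos (mem_bl.1 hcb).2] at this
        exact this
      have h4 : ∑ d ∈ bl B p y, (Y n B p ∩ B c ∩ B d).card =
          ∑ d ∈ S, (Y n B p ∩ B c ∩ B d).card +
          ∑ d ∈ (bl B p y).filter (fun d => ¬ z ∈ B d), (Y n B p ∩ B c ∩ B d).card :=
        (Finset.sum_filter_add_sum_filter_not _ _ _).symm
      have h5 : ((bl B p y).filter (fun d => ¬ z ∈ B d)).card * n ≤
          ∑ d ∈ (bl B p y).filter (fun d => ¬ z ∈ B d), (Y n B p ∩ B c ∩ B d).card := by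
        rw [← smul_eq_mul]
        apply Finset.card_nsmul_le_sum
        intro d hd
        rw [mem_filter] at hd
        exact (h.g_inter_ge hy hcb hd.1 (by
          rintro rfl
          exact hd.2 (mem_filter.1 hc).2)).1
      have h6 : a3 B p y z + ((bl B p y).filter (fun d => ¬ z ∈ B d)).card = r * n + 1 := by
        have := Finset.card_filter_add_card_filter_not (s := bl B p y) (fun c => z ∈ B c)
        rw [h.g_card_bl hy] at this
        exact this
      rw [h4] at h3
      zify at h3 h5 h6 ⊢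
      rw [ha]
      nlinarith
    have h3 : ((∑ w ∈ Y n B p, (S.filter fun c => w ∈ B c).card * (S.filter fun c => w ∈ B c).card : ℕ)
        : ℤ) ≤ ∑ c ∈ S, (r * ((Y n B p ∩ B c).card : ℤ) + n * N - n * (r * n + 1 - a)) := by
      rw [h1, Nat.cast_sum]
      exact Finset.sum_le_sum h2
    have h4 : ∑ c ∈ S, (r * ((Y n B p ∩ B c).card : ℤ) + n * N - n * (r * n + 1 - a)) =
        r * T + a * (n * N) - a * (n * (r * n + 1 - a)) := by
      rw [Finset.sum_sub_distrib, Finset.sum_add_distrib, Finset.sum_const, Finset.sum_const,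
        ← Finset.mul_sum, hSc, hTn, nsmul_eq_mul, nsmul_eq_mul, ha]
      push_cast
      ring
    rw [h4] at h3
    simp only [hA]
    exact_mod_cast h3
  have s14 : ∑ _w ∈ Y n B p, (1 : ℤ) = m := by simp [hm]
  have hpos : 0 ≤ ∑ w ∈ Y n B p, (f w + g w - r - (N - a) * χ w - 2 * A w) ^ 2 :=
    Finset.sum_nonneg fun w _ => sq_nonneg _
  have hexp : ∑ w ∈ Y n B p, (f w + g w - r - (N - a) * χ w - 2 * A w) ^ 2 =
      ∑ w ∈ Y n B p, f w * f w + ∑ w ∈ Y n B p, g w * g w + r ^ 2 * ∑ _w ∈ Y n B p, (1 : ℤ) +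
      (N - a) ^ 2 * ∑ w ∈ Y n B p, χ w * χ w + 4 * ∑ w ∈ Y n B p, A w * A w +
      2 * ∑ w ∈ Y n B p, f w * g w - 2 * r * ∑ w ∈ Y n B p, f w - 2 * r * ∑ w ∈ Y n B p, g w -
      2 * (N - a) * ∑ w ∈ Y n B p, χ w * f w - 2 * (N - a) * ∑ w ∈ Y n B p, χ w * g w -
      4 * ∑ w ∈ Y n B p, A w * f w - 4 * ∑ w ∈ Y n B p, A w * g w +
      2 * r * (N - a) * ∑ w ∈ Y n B p, χ w + 4 * r * ∑ w ∈ Y n B p, A w +
      4 * (N - a) * ∑ w ∈ Y n B p, A w * χ w := by
    simp only [Finset.mul_sum, ← Finset.sum_add_distrib, ← Finset.sum_sub_distrib]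
    refine Finset.sum_congr rfl fun w _ => ?_
    ring
  rw [hexp, s1, s2, s3, s4, s5, s6, s7, s8, s9, s10, s11, s12, s14, ← hT] at hpos
  have hr : (r : ℤ) * n + 1 = N + r := hNz
  rw [hr] at hpos s13 ⊢
  nlinarith [hpos, s13]

end Dsg

end Pool.Agent.N345.DW
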