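import Pool.Agent.N345.DW.Plane
import Pool.Agent.N367.PPD.Main

set_option autoImplicit false
set_option linter.unusedSectionVars false

/-!
# The order is a prime power
-/

namespace Pool.Agent.N345.DW

open Finset Configuration Configuration.ProjectivePlane
open scoped Classical

noncomputable section

variable {X β : Type} [Fintype X] [Fintype β]

section

variable (B : β → Finset X) (x y z : X)

/-- the points of a plane -/
def Pt : Type := {w : X // w ∈ E B x y z}

/-- the lines of a plane -/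
def Ln : Type := {l : Finset X // ∃ a ∈ E B x y z, ∃ b ∈ E B x y z, a ≠ b ∧ l = L B a b}

instance : Membership (Pt B x y z) (Ln B x y z) := ⟨fun l p => p.1 ∈ l.1⟩

instance : Fintype (Pt B x y z) := by unfold Pt; infer_instance

instance : Fintype (Ln B x y z) := by unfold Ln; infer_instance

end

variable {B : β → Finset X} {n r : ℕ} {x y z : X}

theorem mem_ln {p : Pt B x y z} {l : Ln B x y z} : p ∈ l ↔ p.1 ∈ l.1 := Iff.rfl

theorem xE : x ∈ E B x y z := by rw [mem_E]; intros; assumption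
theorem yE : y ∈ E B x y z := by rw [mem_E]; intros; assumption
theorem zE : z ∈ E B x y z := by rw [mem_E]; intros; assumption

/-- the line through two points of a plane -/
def mkL {a b : X} (ha : a ∈ E B x y z) (hb : b ∈ E B x y z) (hab : a ≠ b) : Ln B x y z :=
  ⟨L B a b, a, ha, b, hb, hab, rfl⟩

namespace PG

variable (h : PG n r B) (hxy : x ≠ y) (hz : z ∉ L B x y)
include h

theorem ln_eq {a b : X} (l : Ln B x y z) (ha : a ∈ l.1) (hb : b ∈ l.1) (hab : a ≠ b) :
    l.1 = L B a b := by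
  obtain ⟨l, c, hc, d, hd, hcd, rfl⟩ := l
  exact (h.L_eq hcd hab ha hb).symm

include hxy hz

theorem xz : x ≠ z := fun e => hz (e ▸ left_mem x y)

theorem yz : y ≠ z := fun e => hz (e ▸ right_mem x y)

/-- a point of `xy` and of `xz` is `x` -/
theorem y_notMem : y ∉ L B x z := fun hh => by
  have := h.L_eq (h.xz hxy hz) hxy (left_mem _ _) hh
  exact hz (this ▸ right_mem x z)

theorem x_notMem : x ∉ L B y z := fun hh => by
  have := h.L_eq (h.yz hxy hz) (Ne.symm hxy) (left_mem _ _) hh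
  rw [L_comm] at this
  exact hz (this ▸ right_mem y z)

theorem third {a b : X} (hab : a ≠ b) : ∃ c ∈ L B a b, c ≠ a ∧ c ≠ b := by
  have hn := h.n2
  obtain ⟨Q, hQ, hQ2⟩ : ∃ Q ∈ L B a b, Q ∉ ({a, b} : Finset X) := by
    apply Finset.exists_mem_notMem_of_card_lt_card
    rw [h.long a b hab]
    exact lt_of_le_of_lt Finset.card_le_two (by omega)
  simp only [mem_insert, mem_singleton, not_or] at hQ2
  exact ⟨Q, hQ, hQ2⟩

/-- the projective plane -/
@[reducible] def plane : ProjectivePlane (Pt B x y z) (Ln B x y z) where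
  exists_point := by
    intro l
    by_contra hcon
    push Not at hcon
    have h1 : x ∈ l.1 := hcon ⟨x, xE⟩
    have h2 : y ∈ l.1 := hcon ⟨y, yE⟩
    have h3 : z ∈ l.1 := hcon ⟨z, zE⟩
    rw [h.ln_eq l h1 h2 hxy] at h3
    exact hz h3
  exists_line := by
    intro p
    by_contra hcon
    push Not at hcon
    have h1 : p.1 ∈ L B x y := hcon (mkL xE yE hxy)
    have h2 : p.1 ∈ L B x z := hcon (mkL xE zE (h.xz hxy hz))
    have h3 : p.1 ∈ L B y z := hcon (mkL yE zE (h.yz hxy hz))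
    by_cases hp : p.1 = x
    · exact h.x_notMem hxy hz (hp ▸ h3)
    · have e1 := h.L_eq hxy (Ne.symm hp) (left_mem _ _) h1
      have e2 := h.L_eq (h.xz hxy hz) (Ne.symm hp) (left_mem _ _) h2
      exact hz (by rw [← e1, e2]; exact right_mem _ _)
  eq_or_eq := by
    intro p q l m h1 h2 h3 h4
    by_cases hpq : p.1 = q.1
    · exact Or.inl (Subtype.ext hpq)
    · right
      apply Subtype.ext
      rw [h.ln_eq l h1 h2 hpq, h.ln_eq m h3 h4 hpq]
  mkPoint := by
    intro l m _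
    have : ∃ q : Pt B x y z, q ∈ l ∧ q ∈ m := by
      obtain ⟨l, a, ha, b, hb, hab, rfl⟩ := l
      obtain ⟨m, c, hc, d, hd, hcd, rfl⟩ := m
      obtain ⟨q, hq1, hq2⟩ := h.lines_meet hxy hz hab hcd ha hb hc hd
      exact ⟨⟨q, sub_plane ha hb hq1⟩, hq1, hq2⟩
    exact this.choose
  mkPoint_ax := by
    intro l m hlm
    have : ∃ q : Pt B x y z, q ∈ l ∧ q ∈ m := by
      obtain ⟨l, a, ha, b, hb, hab, rfl⟩ := l
      obtain ⟨m, c, hc, d, hd, hcd, rfl⟩ := m
      obtain ⟨q, hq1, hq2⟩ := h.lines_meet hxy hz hab hcd ha hb hc hd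
      exact ⟨⟨q, sub_plane ha hb hq1⟩, hq1, hq2⟩
    exact this.choose_spec
  mkLine := fun {p q} hpq => mkL p.2 q.2 (fun e => hpq (Subtype.ext e))
  mkLine_ax := fun {p q} _ => ⟨left_mem _ _, right_mem _ _⟩
  exists_config := by
    obtain ⟨u, hu, huy, huz⟩ := h.third hxy hz (h.yz hxy hz)
    obtain ⟨v, hv, hvx, hvy⟩ := h.third hxy hz hxy
    have huE : u ∈ E B x y z := sub_plane yE zE hu
    have hvE : v ∈ E B x y z := sub_plane xE yE hv
    have hzv : z ≠ v := fun e => hz (e ▸ hv)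
    refine ⟨⟨u, huE⟩, ⟨x, xE⟩, ⟨y, yE⟩, mkL zE hvE hzv, mkL xE yE hxy, mkL xE zE (h.xz hxy hz),
      ?_, ?_, ?_, left_mem _ _, left_mem _ _, ?_, right_mem _ _, h.y_notMem hxy hz⟩
    · intro hh
      have hh : u ∈ L B x y := hh
      have e1 := h.L_eq hxy (Ne.symm huy) (right_mem _ _) hh
      have e2 := h.L_eq (h.yz hxy hz) (Ne.symm huy) (left_mem _ _) hu
      exact hz (by rw [← e1, e2]; exact right_mem _ _)
    · intro hh
      have hh : u ∈ L B x z := hh
      have e1 := h.L_eq (h.xz hxy hz) (Ne.symm huz) (right_mem _ _) hh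
      have e2 := h.L_eq (h.yz hxy hz) (Ne.symm huz) (right_mem _ _) hu
      exact h.y_notMem hxy hz (by rw [← e1, e2]; exact left_mem _ _)
    · intro hh
      have hh : x ∈ L B z v := hh
      have e1 := h.L_eq hzv hvx (right_mem _ _) hh
      have e2 := h.L_eq hxy hvx hv (left_mem _ _)
      exact hz (by rw [← e2, e1]; exact left_mem _ _)
    · intro hh
      have hh : y ∈ L B z v := hh
      have e1 := h.L_eq hzv hvy (right_mem _ _) hh
      have e2 := h.L_eq hxy hvy hv (right_mem _ _)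
      exact hz (by rw [← e2, e1]; exact left_mem _ _)

theorem order_plane :
    @order (Pt B x y z) (Ln B x y z) _ (h.plane hxy hz) = n := by
  letI := h.plane hxy hz
  have h1 := pointCount_eq (P := Pt B x y z) (mkL (z := z) xE yE hxy : Ln B x y z)
  have h2 : pointCount (Pt B x y z) (mkL (z := z) xE yE hxy : Ln B x y z) = n + 1 := by
    unfold pointCount
    rw [← h.long x y hxy, ← Nat.card_eq_finsetCard]
    refine Nat.card_congr ⟨fun p => ⟨p.1.1, p.2⟩, fun w => ⟨⟨w.1, sub_plane xE yE w.2⟩, w.2⟩, ?_, ?_⟩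
    · intro p; rfl
    · intro w; rfl
  omega

theorem fail_empty : @Pool.Agent.N367.PPD.failSet (Pt B x y z) (Ln B x y z) _ _ = ∅ := by
  letI := h.plane hxy hz
  rw [Finset.eq_empty_iff_forall_notMem]
  rintro ⟨O, A, C⟩ ht
  rw [Pool.Agent.N367.PPD.mem_failSet] at ht
  obtain ⟨hP, hL⟩ := ht
  apply hL
  obtain ⟨h1, ⟨l, hl, hl2⟩, hA3, hC3⟩ := hP
  have key : ∀ T : Fin 3 → Pt B x y z, (¬ ∃ l : Ln B x y z, ∀ i, T i ∈ l) →
      ∀ i j, i ≠ j → (T i).1 ≠ (T j).1 := by
    intro T hT i j hij e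
    apply hT
    obtain ⟨k, hk⟩ : ∃ k : Fin 3, ∀ m : Fin 3, m = i ∨ m = j ∨ m = k := by
      clear e
      revert i j; decide
    by_cases hik : (T i).1 = (T k).1
    · obtain ⟨w, hw⟩ : ∃ w : Pt B x y z, (T i).1 ≠ w.1 := by
        by_cases hx : (T i).1 = x
        · exact ⟨⟨y, yE⟩, fun e => hxy (hx ▸ e)⟩
        · exact ⟨⟨x, xE⟩, hx⟩
      refine ⟨mkL (T i).2 w.2 hw, fun m => ?_⟩
      rw [mem_ln]
      rcases hk m with rfl | rfl | rfl
      · exact left_mem _ _
      · rw [← e]; exact left_mem _ _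
      · rw [← hik]; exact left_mem _ _
    · refine ⟨mkL (T i).2 (T k).2 hik, fun m => ?_⟩
      rw [mem_ln]
      rcases hk m with rfl | rfl | rfl
      · exact left_mem _ _
      · rw [← e]; exact left_mem _ _
      · exact right_mem _ _
  have hcol : ∀ i, (C i).1 ∈ L B O.1 (A i).1 := by
    intro i
    have := h.ln_eq (l i) (hl2 i).1 (hl2 i).2.1 (fun e => (h1 i).1 (Subtype.ext e.symm))
    rw [← this]
    exact (hl2 i).2.2
  have hA3' : (A 2).1 ∉ L B (A 0).1 (A 1).1 := by
    intro hh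
    apply hA3
    refine ⟨mkL (A 0).2 (A 1).2 (key A hA3 0 1 (by decide)), fun i => ?_⟩
    rw [mem_ln]
    fin_cases i
    · exact left_mem _ _
    · exact right_mem _ _
    · exact hh
  obtain ⟨D, hD, hD2⟩ := h.desargues (A := fun i => (A i).1) (C := fun i => (C i).1) hxy hz O.2
    (fun i => (A i).2) (fun i => (C i).2) (fun i e => (h1 i).1 (Subtype.ext e))
    (fun i e => (h1 i).2.1 (Subtype.ext e)) (fun i e => (h1 i).2.2 (Subtype.ext e)) hcol
    (key A hA3) (key C hC3) hA3'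
  have hDE : ∀ i j, i ≠ j → D i j ∈ E B x y z := fun i j hij =>
    sub_plane (A i).2 (A j).2 (hD i j hij).1
  have h01 : (0 : Fin 3) ≠ 1 := by decide
  have h02 : (0 : Fin 3) ≠ 2 := by decide
  have h12 : (1 : Fin 3) ≠ 2 := by decide
  obtain ⟨a, ha1, ha2, ha3⟩ : ∃ a : Ln B x y z, D 0 1 ∈ a.1 ∧ D 0 2 ∈ a.1 ∧ D 1 2 ∈ a.1 := by
    by_cases e1 : D 0 1 = D 0 2
    · by_cases e2 : D 0 1 = D 1 2
      · obtain ⟨w, hw⟩ : ∃ w : Pt B x y z, D 0 1 ≠ w.1 := by
          by_cases hx : D 0 1 = x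
          · exact ⟨⟨y, yE⟩, fun e => hxy (hx ▸ e)⟩
          · exact ⟨⟨x, xE⟩, hx⟩
        refine ⟨mkL (hDE 0 1 h01) w.2 hw, left_mem _ _, ?_, ?_⟩
        · rw [← e1]; exact left_mem _ _
        · rw [← e2]; exact left_mem _ _
      · refine ⟨mkL (hDE 0 1 h01) (hDE 1 2 h12) e2, left_mem _ _, ?_, right_mem _ _⟩
        rw [← e1]; exact left_mem _ _
    · exact ⟨mkL (hDE 0 1 h01) (hDE 0 2 h02) e1, left_mem _ _, right_mem _ _,
        hD2 _ _ _ rfl rfl rfl e1⟩
  have hm : ∀ i j, i ≠ j → D i j ∈ a.1 → Pool.Agent.N367.PPD.Meet a A C i j := by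
    intro i j hij ha
    refine ⟨⟨D i j, hDE i j hij⟩, ha, ?_, ?_⟩
    · intro m hi hj
      rw [mem_ln, h.ln_eq m hi hj (key A hA3 i j hij)]
      exact (hD i j hij).1
    · intro m hi hj
      rw [mem_ln, h.ln_eq m hi hj (key C hC3 i j hij)]
      exact (hD i j hij).2
  exact ⟨a, hm 0 1 h01 ha1, hm 0 2 h02 ha2, hm 1 2 h12 ha3⟩

end PG

/-- **Dembowski–Wagner**: the order is a prime power if all lines are long. -/
theorem PG.primePow (h : PG n r B) : IsPrimePow n := by
  rcases Nat.lt_or_ge n 3 with hn | hn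
  · have h2 := h.n2
    have : n = 2 := by omega
    rw [this]
    exact Nat.prime_two.isPrimePow
  obtain ⟨x, y, z, hxy, hz⟩ := h.exists_triangle
  letI := h.plane hxy hz
  have ho := h.order_plane hxy hz
  rcases Pool.Agent.N367.PPD.main (P := Pt B x y z) (L := Ln B x y z) (by rw [ho]; exact hn) with h1 | h1
  · rw [ho] at h1
    exact h1.2
  · rw [h.fail_empty hxy hz, Finset.card_empty, mul_zero, ho] at h1
    have : 0 < n ^ 10 := by positivity
    omega

end

end Pool.Agent.N345.DW
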