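import Pool.Agent.N345.DW.Gap

set_option autoImplicit false
set_option linter.unusedSectionVars false

/-!
# Planes, if all lines are long
-/

namespace Pool.Agent.N345.DW

open Finset

variable {X β : Type} [Fintype X] [Fintype β] [DecidableEq X] [DecidableEq β]

/-- the plane spanned by `x`, `y`, `z` -/
def E (B : β → Finset X) (x y z : X) : Finset X :=
  univ.filter fun w => ∀ b, x ∈ B b → y ∈ B b → z ∈ B b → w ∈ B b

variable {B : β → Finset X} {n r : ℕ}

theorem mem_E {x y z w : X} : w ∈ E B x y z ↔ ∀ b, x ∈ B b → y ∈ B b → z ∈ B b → w ∈ B b := by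
  simp [E]

/-- symmetric design with all lines long -/
structure PG (n r : ℕ) (B : β → Finset X) : Prop extends Dsg n r B where
  long : ∀ x y, x ≠ y → (L B x y).card = n + 1
  r1 : 1 ≤ r

namespace PG

variable (h : PG n r B)
include h

theorem L_eq {x y z w : X} (hxy : x ≠ y) (hzw : z ≠ w) (hz : z ∈ L B x y) (hw : w ∈ L B x y) :
    L B z w = L B x y := h.toDsg.L_eq hxy hzw hz hw

theorem three {x y z : X} (hxy : x ≠ y) (hz : z ∉ L B x y) :
    (univ.filter fun b => x ∈ B b ∧ y ∈ B b ∧ z ∈ B b).card = r :=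
  h.toDsg.three hxy (h.long x y hxy) hz

/-- `a, b, c` span the plane `F` -/
def Span (B : β → Finset X) (F : Finset X) (a b c : X) : Prop :=
  a ≠ b ∧ c ∉ L B a b ∧ F = E B a b c

omit h in
theorem sub_plane {x y z a b : X} (ha : a ∈ E B x y z) (hb : b ∈ E B x y z) :
    L B a b ⊆ E B x y z := by
  intro w hw
  rw [mem_E] at *
  rw [mem_L] at hw
  exact fun c h1 h2 h3 => hw c (ha c h1 h2 h3) (hb c h1 h2 h3)

theorem E_eq {x y z a b c : X} (hxy : x ≠ y) (hz : z ∉ L B x y) (hab : a ≠ b) (hc : c ∉ L B a b)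
    (h1 : a ∈ E B x y z) (h2 : b ∈ E B x y z) (h3 : c ∈ E B x y z) : E B a b c = E B x y z := by
  have e : (univ.filter fun d => x ∈ B d ∧ y ∈ B d ∧ z ∈ B d) =
      univ.filter fun d => a ∈ B d ∧ b ∈ B d ∧ c ∈ B d := by
    apply Finset.eq_of_subset_of_card_le
    · intro d hd
      rw [mem_E] at h1 h2 h3
      simp only [mem_filter, mem_univ, true_and] at hd ⊢
      exact ⟨h1 d hd.1 hd.2.1 hd.2.2, h2 d hd.1 hd.2.1 hd.2.2, h3 d hd.1 hd.2.1 hd.2.2⟩
    · rw [h.three hxy hz, h.three hab hc]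
  ext w
  rw [mem_E, mem_E]
  constructor
  · intro hw d h1' h2' h3'
    have : d ∈ univ.filter fun d => a ∈ B d ∧ b ∈ B d ∧ c ∈ B d := by
      rw [← e]
      simp only [mem_filter, mem_univ, true_and]
      exact ⟨h1', h2', h3'⟩
    simp only [mem_filter, mem_univ, true_and] at this
    exact hw d this.1 this.2.1 this.2.2
  · intro hw d h1' h2' h3'
    have : d ∈ univ.filter fun d => x ∈ B d ∧ y ∈ B d ∧ z ∈ B d := by
      rw [e]
      simp only [mem_filter, mem_univ, true_and]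
      exact ⟨h1', h2', h3'⟩
    simp only [mem_filter, mem_univ, true_and] at this
    exact hw d this.1 this.2.1 this.2.2

/-- two lines of a plane meet -/
theorem lines_meet {x y z a b c d : X} (hxy : x ≠ y) (hz : z ∉ L B x y) (hab : a ≠ b) (hcd : c ≠ d)
    (h1 : a ∈ E B x y z) (h2 : b ∈ E B x y z) (h3 : c ∈ E B x y z) (h4 : d ∈ E B x y z) :
    ∃ q, q ∈ L B a b ∧ q ∈ L B c d := by
  have hn := h.n2
  have hlt : (univ.filter fun e => x ∈ B e ∧ y ∈ B e ∧ z ∈ B e).card <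
      (univ.filter fun e => a ∈ B e ∧ b ∈ B e).card := by
    rw [h.three hxy hz, h.pair a b hab]
    nlinarith
  obtain ⟨e, he1, he2⟩ := Finset.exists_mem_notMem_of_card_lt_card hlt
  simp only [mem_filter, mem_univ, true_and] at he1 he2
  obtain ⟨q, hq1, hq2⟩ := h.toDsg.meets hcd (h.long c d hcd) e
  refine ⟨q, ?_, hq1⟩
  by_contra hq
  apply he2
  have hqE : q ∈ E B x y z := sub_plane h3 h4 hq1
  have h5 := h.E_eq hxy hz hab hq h1 h2 hqE
  have h6 : ∀ w, w ∈ E B x y z → w ∈ B e := by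
    intro w hw
    rw [← h5, mem_E] at hw
    exact hw e he1.1 he1.2 hq2
  refine ⟨h6 x ?_, h6 y ?_, h6 z ?_⟩ <;> rw [mem_E] <;> intros <;> assumption

/-- there is a point off every plane -/
theorem exists_off {x y z : X} (hxy : x ≠ y) (hz : z ∉ L B x y) : ∃ w, w ∉ E B x y z := by
  have h1 : 0 < (univ.filter fun e => x ∈ B e ∧ y ∈ B e ∧ z ∈ B e).card := by
    rw [h.three hxy hz]; exact h.r1
  obtain ⟨e, he⟩ := Finset.card_pos.1 h1
  simp only [mem_filter, mem_univ, true_and] at he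
  have h2 : (B e).card < (univ : Finset X).card := by
    rw [h.size, Finset.card_univ, h.cX]
    have hn := h.n2
    have : (r * n + 1) * n + 1 < ((r * n + 1) * n + 1) * n :=
      lt_mul_of_one_lt_right (Nat.succ_pos _) hn
    omega
  obtain ⟨w, -, hw⟩ := Finset.exists_mem_notMem_of_card_lt_card h2
  refine ⟨w, fun hh => hw ?_⟩
  rw [mem_E] at hh
  exact hh e he.1 he.2.1 he.2.2

/-- three points not on a line exist -/
theorem exists_triangle : ∃ x y z : X, x ≠ y ∧ z ∉ L B x y := by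
  have hn := h.n2
  have h1 : 1 < Fintype.card X := by
    rw [h.cX]
    have : 0 < ((r * n + 1) * n + 1) * n := Nat.mul_pos (Nat.succ_pos _) (by omega)
    omega
  obtain ⟨x, y, hxy⟩ := Fintype.exists_pair_of_one_lt_card h1
  have h2 : (L B x y).card < (univ : Finset X).card := by
    rw [h.long x y hxy, Finset.card_univ, h.cX]
    have : 1 < (r * n + 1) * n + 1 := by
      have : 0 < (r * n + 1) * n := Nat.mul_pos (Nat.succ_pos _) (by omega)
      omega
    have : n < ((r * n + 1) * n + 1) * n := lt_mul_of_one_lt_left (by omega) this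
    omega
  obtain ⟨w, -, hw⟩ := Finset.exists_mem_notMem_of_card_lt_card h2
  exact ⟨x, y, w, hxy, hw⟩

/-- **Desargues' theorem**, lifting into space. -/
theorem desargues {x y z O : X} {A C : Fin 3 → X} (hxy : x ≠ y) (hz : z ∉ L B x y)
    (hO : O ∈ E B x y z) (hA : ∀ i, A i ∈ E B x y z) (hC : ∀ i, C i ∈ E B x y z)
    (hAO : ∀ i, A i ≠ O) (hCO : ∀ i, C i ≠ O) (hAC : ∀ i, A i ≠ C i)
    (hcol : ∀ i, C i ∈ L B O (A i)) (hAij : ∀ i j, i ≠ j → A i ≠ A j)
    (hCij : ∀ i j, i ≠ j → C i ≠ C j) (hA3 : A 2 ∉ L B (A 0) (A 1)) :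
    ∃ D : Fin 3 → Fin 3 → X, (∀ i j, i ≠ j → D i j ∈ L B (A i) (A j) ∧ D i j ∈ L B (C i) (C j)) ∧
      ∀ a b c, a = D 0 1 → b = D 0 2 → c = D 1 2 → a ≠ b → c ∈ L B a b := by
  have hn := h.n2
  obtain ⟨P, hP⟩ := h.exists_off hxy hz
  have hPO : O ≠ P := fun e => hP (e ▸ hO)
  -- a third point on `OP`
  obtain ⟨Q, hQ, hQ2⟩ : ∃ Q ∈ L B O P, Q ∉ ({O, P} : Finset X) := by
    apply Finset.exists_mem_notMem_of_card_lt_card
    rw [h.long O P hPO]
    exact lt_of_le_of_lt Finset.card_le_two (by omega)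
  simp only [mem_insert, mem_singleton, not_or] at hQ2
  have hline : ∀ a b, a ∈ E B x y z → b ∈ E B x y z → L B a b ⊆ E B x y z := fun a b h1 h2 =>
    sub_plane h1 h2
  have hQE : Q ∉ E B x y z := by
    intro hq
    have := h.L_eq hPO (Ne.symm hQ2.1) (left_mem O P) hQ
    exact hP (hline O Q hO hq (this ▸ right_mem O P))
  have offl : ∀ u v w, u ∈ E B x y z → v ∈ E B x y z → w ∉ E B x y z → w ∉ L B u v :=
    fun u v w hu hv hw hh => hw (hline u v hu hv hh)
  -- the points `T i`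
  have hT : ∀ i, ∃ t, t ∈ L B (A i) P ∧ t ∈ L B (C i) Q := by
    intro i
    have e1 : P ∉ L B O (A i) := offl _ _ _ hO (hA i) hP
    apply h.lines_meet (x := O) (y := A i) (z := P) (Ne.symm (hAO i)) e1
      (fun e : A i = P => hP (e ▸ hA i)) (fun e : C i = Q => hQE (e ▸ hC i))
    · rw [mem_E]; intros; assumption
    · rw [mem_E]; intros; assumption
    · rw [mem_E]; intro b h1 h2 _; exact mem_L.1 (hcol i) b h1 h2
    · rw [mem_E]; intro b h1 _ h3; exact mem_L.1 hQ b h1 h3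
  choose T hT1 hT2 using hT
  have hAP : ∀ i, A i ≠ P := fun i e => hP (e ▸ hA i)
  have hCQ : ∀ i, C i ≠ Q := fun i e => hQE (e ▸ hC i)
  have hTE : ∀ i, T i ∉ E B x y z := by
    intro i hi
    have e1 : T i = A i := by
      by_contra hne
      have := h.L_eq (hAP i) (Ne.symm hne) (left_mem _ _) (hT1 i)
      exact hP (hline _ _ (hA i) hi (this ▸ right_mem _ _))
    have e2 : T i = C i := by
      by_contra hne
      have := h.L_eq (hCQ i) (Ne.symm hne) (left_mem _ _) (hT2 i)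
      exact hQE (hline _ _ (hC i) hi (this ▸ right_mem _ _))
    exact hAC i (e1.symm.trans e2)
  have hTP : ∀ i, T i ≠ P := by
    intro i e
    have h1 : P ∈ L B (C i) Q := e ▸ hT2 i
    have h2 := h.L_eq (hCQ i) hQ2.2 (right_mem _ _) h1
    have h3 := h.L_eq hPO hQ2.2 hQ (right_mem O P)
    have h4 : C i ∈ L B O P := by rw [← h3, h2]; exact left_mem _ _
    have h5 := h.L_eq hPO (hCO i) h4 (left_mem O P)
    exact hP (hline _ _ (hC i) hO (h5 ▸ right_mem O P))
  have hTQ : ∀ i, T i ≠ Q := by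
    intro i e
    have h1 : Q ∈ L B (A i) P := e ▸ hT1 i
    have h2 := h.L_eq (hAP i) (Ne.symm hQ2.2) (right_mem _ _) h1
    have h3 := h.L_eq hPO (Ne.symm hQ2.2) (right_mem O P) hQ
    have h4 : A i ∈ L B O P := by rw [← h3, h2]; exact left_mem _ _
    have h5 := h.L_eq hPO (hAO i) h4 (left_mem O P)
    exact hP (hline _ _ (hA i) hO (h5 ▸ right_mem O P))
  have hTT : ∀ i j, i ≠ j → T i ≠ T j := by
    intro i j hij e
    have h1 := h.L_eq (hAP i) (Ne.symm (hTP i)) (right_mem _ _) (hT1 i)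
    have h2 := h.L_eq (hAP j) (Ne.symm (hTP j)) (right_mem _ _) (hT1 j)
    rw [← e] at h2
    have h3 : A j ∈ L B (A i) P := by rw [← h1, h2]; exact left_mem _ _
    have h4 := h.L_eq (hAP i) (hAij i j hij) (left_mem _ _) h3
    exact hP (hline _ _ (hA i) (hA j) (h4 ▸ right_mem _ _))
  -- the points `D i j`
  have hD : ∀ i j, i ≠ j → ∃ d, d ∈ L B (A i) (A j) ∧ d ∈ L B (C i) (C j) ∧ d ∈ L B (T i) (T j) := by
    intro i j hij
    obtain ⟨d, hd1, hd2⟩ := h.lines_meet (x := A i) (y := A j) (z := P) (hAij i j hij)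
      (offl _ _ _ (hA i) (hA j) hP) (hAij i j hij) (hTT i j hij)
      (by rw [mem_E]; intros; assumption) (by rw [mem_E]; intros; assumption)
      (by rw [mem_E]; intro b h1 h2 h3; exact mem_L.1 (hT1 i) b h1 h3)
      (by rw [mem_E]; intro b h1 h2 h3; exact mem_L.1 (hT1 j) b h2 h3)
    obtain ⟨d', hd1', hd2'⟩ := h.lines_meet (x := C i) (y := C j) (z := Q) (hCij i j hij)
      (offl _ _ _ (hC i) (hC j) hQE) (hCij i j hij) (hTT i j hij)
      (by rw [mem_E]; intros; assumption) (by rw [mem_E]; intros; assumption)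
      (by rw [mem_E]; intro b h1 h2 h3; exact mem_L.1 (hT2 i) b h1 h3)
      (by rw [mem_E]; intro b h1 h2 h3; exact mem_L.1 (hT2 j) b h2 h3)
    have e : d = d' := by
      by_contra hne
      have h1 := h.L_eq (hTT i j hij) hne hd2 hd2'
      have h2 : T i ∈ L B d d' := h1 ▸ left_mem _ _
      exact hTE i (hline d d' (hline _ _ (hA i) (hA j) hd1) (hline _ _ (hC i) (hC j) hd1') h2)
    exact ⟨d, hd1, e ▸ hd1', hd2⟩
  choose D hD1 hD2 hD3 using hD
  -- the points `T i` are not collinear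
  have hT3 : T 2 ∉ L B (T 0) (T 1) := by
    intro hcolT
    have h01 : (0 : Fin 3) ≠ 1 := by decide
    by_cases hPm : P ∈ L B (T 0) (T 1)
    · -- all `A i` on the line
      have hA' : ∀ i, T i ∈ L B (T 0) (T 1) → A i ∈ L B (T 0) (T 1) := by
        intro i hi
        have h1 := h.L_eq (hTT 0 1 h01) (Ne.symm (hTP i)) hPm hi
        have h2 := h.L_eq (hAP i) (Ne.symm (hTP i)) (right_mem _ _) (hT1 i)
        rw [← h1, h2]; exact left_mem _ _
      have a0 := hA' 0 (left_mem _ _)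
      have a1 := hA' 1 (right_mem _ _)
      have a2 := hA' 2 hcolT
      exact hA3 (by rw [h.L_eq (hTT 0 1 h01) (hAij 0 1 h01) a0 a1]; exact a2)
    · have hA' : ∀ i, T i ∈ E B (T 0) (T 1) P → A i ∈ E B (T 0) (T 1) P := by
        intro i hi
        have h2 := h.L_eq (hAP i) (Ne.symm (hTP i)) (right_mem _ _) (hT1 i)
        have h3 : P ∈ E B (T 0) (T 1) P := by rw [mem_E]; intros; assumption
        exact sub_plane h3 hi (h2 ▸ left_mem _ _)
      have t0 : T 0 ∈ E B (T 0) (T 1) P := by rw [mem_E]; intros; assumption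
      have t1 : T 1 ∈ E B (T 0) (T 1) P := by rw [mem_E]; intros; assumption
      have t2 : T 2 ∈ E B (T 0) (T 1) P := sub_plane t0 t1 hcolT
      have e1 := h.E_eq (hTT 0 1 h01) hPm (hAij 0 1 h01) hA3 (hA' 0 t0) (hA' 1 t1) (hA' 2 t2)
      have e2 := h.E_eq hxy hz (hAij 0 1 h01) hA3 (hA 0) (hA 1) (hA 2)
      exact hTE 0 (by rw [← e2, e1]; exact t0)
  have h01 : (0 : Fin 3) ≠ 1 := by decide
  have h02 : (0 : Fin 3) ≠ 2 := by decide
  have h12 : (1 : Fin 3) ≠ 2 := by decide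
  refine ⟨fun i j => if hij : i ≠ j then D i j hij else O, ?_, ?_⟩
  · intro i j hij
    simp only [dif_pos hij]
    exact ⟨hD1 i j hij, hD2 i j hij⟩
  · rintro a b c ha hb hc hab
    simp only [dif_pos h01] at ha
    simp only [dif_pos h02] at hb
    simp only [dif_pos h12] at hc
    by_contra hcab
    have t0 : T 0 ∈ E B (T 0) (T 1) (T 2) := by rw [mem_E]; intros; assumption
    have t1 : T 1 ∈ E B (T 0) (T 1) (T 2) := by rw [mem_E]; intros; assumption
    have t2 : T 2 ∈ E B (T 0) (T 1) (T 2) := by rw [mem_E]; intros; assumption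
    have e1 := h.E_eq (hTT 0 1 h01) hT3 hab hcab
      (sub_plane t0 t1 (ha ▸ hD3 0 1 h01)) (sub_plane t0 t2 (hb ▸ hD3 0 2 h02))
      (sub_plane t1 t2 (hc ▸ hD3 1 2 h12))
    have e2 := h.E_eq hxy hz hab hcab
      (hline _ _ (hA 0) (hA 1) (ha ▸ hD1 0 1 h01)) (hline _ _ (hA 0) (hA 2) (hb ▸ hD1 0 2 h02))
      (hline _ _ (hA 1) (hA 2) (hc ▸ hD1 1 2 h12))
    exact hTE 0 (by rw [← e2, e1]; exact t0)

end PG

end Pool.Agent.N345.DW
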